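import Pool.Agent.Q209.BE.Tr

/-!
# Counting countable models: similarity and isomorphism
-/

namespace Pool.Agent.Q209.BE

open FirstOrder FirstOrder.Language

variable {m : ℕ} {M N P : Type}

theorem gen_infinite {D : Dat m M} (hD : Gen D) : Infinite M := by
  by_contra h
  rw [not_infinite_iff_finite] at h
  obtain ⟨y, hy, -⟩ := hD.ext1 M id ⟨fun _ => False, fun _ => False, fun _ => False,
    fun _ => False, False, 0⟩ ⟨fun _ _ h => h.elim, fun _ _ h => h.elim, fun _ _ h => h.elim,
    fun _ h => h.elim, fun _ h => h.elim, fun _ _ _ h => h.elim, fun _ _ _ h => h.elim⟩ 0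
    (fun _ h => h.elim) (fun _ h => h.elim)
  exact hy.ne y rfl

/-- pullback of data -/
def Dat.pull (D : Dat m M) (e : N → M) : Dat m N where
  lt := fun x y => D.lt (e x) (e y)
  ad := fun x y => D.ad (e x) (e y)
  lab := fun x => D.lab (e x)
  lev := fun x => D.lev (e x)

theorem gen_pull {D : Dat m M} (hD : Gen D) (e : N ≃ M) : Gen (D.pull e) := by
  have hcons : ∀ (ι : Type) (w : ι → N) (p : Pat m ι), Cons (D.pull e) w p → Cons D (e ∘ w) p := by
    intro ι w p hc
    exact { du := hc.du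
            dc := fun i j hj hij => hc.dc i j hj (by
              rcases hij with h | h
              · exact Or.inl (e.injective h)
              · exact Or.inr h)
            uc := fun i j hj hij => hc.uc i j hj (by
              rcases hij with h | h
              · exact Or.inl (e.injective h)
              · exact Or.inr h)
            dl := hc.dl
            ul := hc.ul
            eo := fun i j hij => hc.eo i j (e.injective hij)
            ei := fun i j hij => hc.ei i j (e.injective hij) }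
  have hrea : ∀ (ι : Type) (w : ι → N) (p : Pat m ι) (y : M), Rea D (e ∘ w) p y →
      Rea (D.pull e) w p (e.symm y) := by
    intro ι w p y hy
    constructor
    · intro i h
      exact hy.ne i (by rw [Function.comp_apply, ← h]; simp)
    · intro i; rw [← hy.dn i]; simp [Dat.pull]
    · intro i; rw [← hy.up i]; simp [Dat.pull]
    · intro i; rw [← hy.ot i]; simp [Dat.pull]
    · intro i; rw [← hy.inn i]; simp [Dat.pull]
    · rw [← hy.lp]; simp [Dat.pull]
    · rw [← hy.lb]; simp [Dat.pull]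
  constructor
  · exact ⟨fun x => hD.irr _, fun x y z => hD.tr _ _ _, fun x y => hD.lab _ _,
      fun x y => hD.lev _ _⟩
  · intro ι _ w p hc
    obtain ⟨y, hy⟩ := hD.ext0 ι _ p (hcons ι w p hc)
    exact ⟨_, hrea ι w p y hy⟩
  · intro ι _ w p hc n h1 h2
    obtain ⟨y, hy, hyn⟩ := hD.ext1 ι _ p (hcons ι w p hc) n h1 h2
    exact ⟨_, hrea ι w p y hy, by simp [Dat.pull, hyn]⟩

/-- a point of label `u` and infinite level exists -/
def Has (E : Dat m N) (u : Fin (m + 1)) : Prop := ∃ x, E.lev x = ⊤ ∧ E.lab x = u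

theorem Has.lower {E : Dat m N} (hE : Gen E) {u u' : Fin (m + 1)} (h : Has E u) (hu : u' ≤ u) :
    Has E u' := by
  obtain ⟨x, hx, hxu⟩ := h
  obtain ⟨y, hy⟩ := hE.ext0 Unit (fun _ => x) ⟨fun _ => True, fun _ => False, fun _ => False,
    fun _ => False, False, u'⟩ ⟨fun _ _ _ h => h.elim, fun _ _ _ _ => trivial,
    fun _ _ h => h.elim, fun _ _ => by rw [hxu]; exact hu, fun _ h => h.elim,
    fun _ _ _ h => h.elim, fun _ _ _ h => h.elim⟩
  have h1 := hE.lev _ _ ((hy.dn ()).2 trivial)
  rw [hx, top_le_iff] at h1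
  exact ⟨y, h1, hy.lb⟩

theorem exists_embed {D : Dat m M} {E : Dat m N} (hD : Gen D) (hE : Gen E) [Countable M]
    (h : ∀ u, Has D u → Has E u) : ∃ e : M → N, EqF D E (id : M → M) e := by
  have : Infinite M := gen_infinite hD
  by_cases hn : ∃ u, Has D u
  · obtain ⟨u0, hu0, hmax⟩ := (Set.toFinite {u | Has D u}).exists_maximal hn
    obtain ⟨c, hc, hcu⟩ := h u0 hu0
    refine embed hD hE (κ := Unit) (fun _ => c) (fun _ => hc) ?_ (fun _ _ => ⟨()⟩)
    intro _ x hx
    rw [hcu]
    rcases le_total (D.lab x) u0 with h1 | h1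
    · exact h1
    · exact hmax (show D.lab x ∈ {u | Has D u} from ⟨x, hx, rfl⟩) h1
  · refine embed hD hE (κ := Empty) (fun i => i.elim) (fun i => i.elim) (fun i => i.elim) ?_
    intro x hx
    exact (hn ⟨_, x, hx, rfl⟩).elim

theorem EqF.has {D : Dat m M} {E : Dat m N} {e : M → N} (he : EqF D E (id : M → M) e)
    (u : Fin (m + 1)) (h : Has D u) : Has E u := by
  obtain ⟨x, hx, hxu⟩ := h
  exact ⟨e x, by rw [← (he x x).2.2.2.2]; exact hx, by rw [← (he x x).2.2.2.1]; exact hxu⟩

theorem eqF_of_raw {D : Dat m M} {E : Dat m N} [(Lg m).Structure M] [(Lg m).Structure N]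
    (hD : Descr D) (hE : Descr E) {e : M → N} (hinj : Function.Injective e)
    (h2 : ∀ (r : Rl m 2) (v : Fin 2 → M), Structure.RelMap (L := Lg m) (M := N) r (e ∘ v) ↔
      Structure.RelMap (L := Lg m) (M := M) r v)
    (h1 : ∀ (r : Rl m 1) (v : Fin 1 → M), Structure.RelMap (L := Lg m) (M := N) r (e ∘ v) ↔
      Structure.RelMap (L := Lg m) (M := M) r v) : EqF D E (id : M → M) e := by
  have c2 : ∀ (x y : M), e ∘ ![x, y] = ![e x, e y] := by
    intro x y; funext i; fin_cases i <;> rfl
  have c1 : ∀ (x : M), e ∘ ![x] = ![e x] := by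
    intro x; funext i; fin_cases i; rfl
  have hlt : ∀ x y, D.lt x y ↔ E.lt (e x) (e y) := by
    intro x y
    rw [← hD.lt, ← hE.lt]
    have := h2 Rl.lt ![x, y]
    rw [c2] at this
    exact this.symm
  have had : ∀ x y, D.ad x y ↔ E.ad (e x) (e y) := by
    intro x y
    rw [← hD.ad, ← hE.ad]
    have := h2 Rl.ad ![x, y]
    rw [c2] at this
    exact this.symm
  have hlb : ∀ x, D.lab x = E.lab (e x) := by
    intro x
    have h3 : rlb (D.lab x) x := (hD.lb _ _).2 rfl
    have := h1 (Rl.lb (D.lab x)) ![x]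
    rw [c1] at this
    exact ((hE.lb _ _).1 (this.2 h3)).symm
  have hlv : ∀ x (q : ℕ), D.lev x = (q : ℕ∞) ↔ E.lev (e x) = (q : ℕ∞) := by
    intro x q
    rw [← hD.lv, ← hE.lv]
    have := h1 (Rl.lv q) ![x]
    rw [c1] at this
    exact this.symm
  have hlv' : ∀ x, D.lev x = E.lev (e x) := by
    intro x
    by_cases hx : D.lev x = ⊤
    · by_contra hne
      rw [hx] at hne
      obtain ⟨q, hq⟩ := ENat.ne_top_iff_exists.1 (Ne.symm hne)
      have := (hlv x q).2 hq.symm
      rw [hx] at this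
      exact ENat.natCast_ne_top q this.symm
    · obtain ⟨q, hq⟩ := ENat.ne_top_iff_exists.1 hx
      rw [← hq]
      exact ((hlv x q).1 hq.symm).symm
  intro x y
  exact ⟨hlt x y, had x y, hinj.eq_iff.symm, hlb x, hlv' x⟩

/-- the models with underlying set `ℕ` -/
def MN (m : ℕ) : Type := {S : (Lg m).Structure ℕ // @Theory.Model (Lg m) ℕ S (Th m)}

theorem MN.ex (A : MN m) : ∃ E : Dat m ℕ, @Descr m ℕ E A.1 ∧ Gen E := by
  let _ := A.1
  obtain ⟨E, hE⟩ := exists_descr (N := ℕ) A.2
  exact ⟨E, hE, gen_of_model A.2 hE⟩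

noncomputable def MN.dat (A : MN m) : Dat m ℕ := Classical.choose A.ex
theorem MN.descr (A : MN m) : @Descr m ℕ A.dat A.1 := (Classical.choose_spec A.ex).1
theorem MN.gen (A : MN m) : Gen A.dat := (Classical.choose_spec A.ex).2

theorem Descr.unique {D E : Dat m N} [(Lg m).Structure N] (hD : Descr D) (hE : Descr E) :
    EqF D E (id : N → N) id :=
  eqF_of_raw hD hE Function.injective_id (fun _ _ => Iff.rfl) (fun _ _ => Iff.rfl)

/-- elementary embeddability of models -/
theorem emb_iff (A B : MN m) : Nonempty (@ElementaryEmbedding (Lg m) ℕ ℕ A.1 B.1) ↔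
    ∀ u, Has A.dat u → Has B.dat u := by
  let SA : (Lg m).Structure ℕ := A.1
  let SB : (Lg m).Structure ℕ := B.1
  constructor
  · rintro ⟨f⟩
    have h := @eqF_of_raw m ℕ ℕ A.dat B.dat A.1 B.1 A.descr B.descr f
      (@ElementaryEmbedding.injective (Lg m) ℕ ℕ A.1 B.1 f)
      (fun r v => @ElementaryEmbedding.map_rel (Lg m) ℕ ℕ A.1 B.1 f 2 r v)
      (fun r v => @ElementaryEmbedding.map_rel (Lg m) ℕ ℕ A.1 B.1 f 1 r v)
    exact fun u => h.has u
  · intro h
    obtain ⟨e, he⟩ := exists_embed A.gen B.gen h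
    exact ⟨@elem m ℕ ℕ A.dat B.dat A.1 B.1 A.descr B.descr (fun k => forth A.gen B.gen k)
      (fun k => forth B.gen A.gen k) e (fun k => he.eqv k)⟩

/-- the number of labels of points of infinite level -/
theorem exists_t {E : Dat m N} (hE : Gen E) : ∃ k : Fin (m + 2), ∀ u : Fin (m + 1),
    Has E u ↔ (u : ℕ) < (k : ℕ) := by
  classical
  have hex : ∃ k : ℕ, ∀ h : k < m + 1, ¬ Has E ⟨k, h⟩ := ⟨m + 1, fun h => (lt_irrefl _ h).elim⟩
  have h1 := Nat.find_spec hex
  have h2 : Nat.find hex ≤ m + 1 := Nat.find_min' hex (fun h => (lt_irrefl _ h).elim)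
  refine ⟨⟨Nat.find hex, by omega⟩, fun u => ⟨fun hu => ?_, fun hu => ?_⟩⟩
  · by_contra hlt
    rw [not_lt] at hlt
    have h3 : Nat.find hex < m + 1 := lt_of_le_of_lt hlt u.2
    exact h1 h3 (hu.lower hE hlt)
  · have h3 := Nat.find_min hex hu
    push Not at h3
    obtain ⟨h4, h5⟩ := h3
    exact h5

noncomputable def MN.t (A : MN m) : Fin (m + 2) := Classical.choose (exists_t A.gen)
theorem MN.t_spec (A : MN m) : ∀ u : Fin (m + 1), Has A.dat u ↔ (u : ℕ) < (A.t : ℕ) :=
  Classical.choose_spec (exists_t A.gen)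

theorem sim_iff (A B : MN m) : (Nonempty (@ElementaryEmbedding (Lg m) ℕ ℕ A.1 B.1) ∧
    Nonempty (@ElementaryEmbedding (Lg m) ℕ ℕ B.1 A.1)) ↔ A.t = B.t := by
  rw [emb_iff, emb_iff]
  constructor
  · rintro ⟨h1, h2⟩
    have hA := A.t_spec
    have hB := B.t_spec
    apply Fin.ext
    by_contra hne
    rcases lt_or_gt_of_ne hne with hlt | hlt
    · have h3 : (A.t : ℕ) < m + 1 := by
        have := B.t.2
        omega
      have h4 := h2 ⟨A.t, h3⟩ ((hB _).2 hlt)
      have h5 := (hA _).1 h4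
      exact lt_irrefl _ h5
    · have h3 : (B.t : ℕ) < m + 1 := by
        have := A.t.2
        omega
      have h4 := h1 ⟨B.t, h3⟩ ((hA _).2 hlt)
      have h5 := (hB _).1 h4
      exact lt_irrefl _ h5
  · intro h
    have hA := A.t_spec
    have hB := B.t_spec
    rw [h] at hA
    exact ⟨fun u hu => (hB u).2 ((hA u).1 hu), fun u hu => (hA u).2 ((hB u).1 hu)⟩

/-- the model generated by a set of points -/
theorem exists_MN (I : Set ℕ) : ∃ (A : MN m) (e : ℕ ≃ part (U m) I),
    EqF (((U m).sub (part (U m) I)).pull e) A.dat (id : ℕ → ℕ) id := by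
  have hG := gen_part (full_U m) I
  have hinf : Infinite (part (U m) I) := gen_infinite hG
  obtain ⟨e⟩ : Nonempty (ℕ ≃ part (U m) I) := nonempty_equiv_of_countable
  have hG' := gen_pull hG e
  let E := ((U m).sub (part (U m) I)).pull e
  let _ : (Lg m).Structure ℕ := E.str
  have hE : Descr E := descr_str E
  have hmod : ℕ ⊨ Th m := model_of_gen hE hG'
  exact ⟨⟨E.str, hmod⟩, e, hE.unique (MN.descr ⟨E.str, hmod⟩)⟩

theorem t_surj (k : Fin (m + 2)) : ∃ A : MN m, A.t = k := by
  have key : ∃ A : MN m, ∀ u : Fin (m + 1), Has A.dat u ↔ (u : ℕ) < (k : ℕ) := by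
    rcases Nat.eq_zero_or_pos (k : ℕ) with hk | hk
    · obtain ⟨A, e, h⟩ := exists_MN (m := m) ∅
      refine ⟨A, fun u => ⟨?_, fun h => by omega⟩⟩
      rintro ⟨x, hx, -⟩
      exfalso
      have h1 := (h x x).2.2.2.2
      change (U m).lev (e x) = A.dat.lev x at h1
      rcases (e x).2 with h2 | ⟨i, hi, -⟩
      · exact h2 (h1.trans hx)
      · exact hi.elim
    · have hk1 : (k : ℕ) - 1 < m + 1 := by
        have := k.2
        omega
      obtain ⟨c, hc, hct⟩ := (full_U m).ext Empty (fun i => i.elim) ⟨fun _ => False,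
        fun _ => False, fun _ => False, fun _ => False, False, ⟨(k : ℕ) - 1, hk1⟩⟩
        ⟨fun i => i.elim, fun i => i.elim, fun i => i.elim, fun i => i.elim, fun i => i.elim,
          fun i => i.elim, fun i => i.elim⟩ ⊤ (fun i => i.elim) (fun i => i.elim)
      have hcl : (U m).lab c = ⟨(k : ℕ) - 1, hk1⟩ := hc.lb
      obtain ⟨A, e, h⟩ := exists_MN (m := m) {c}
      have h' : EqF A.dat (((U m).sub (part (U m) {c})).pull e) (id : ℕ → ℕ) id := by
        intro x y
        obtain ⟨a, b, c, d, e⟩ := h x y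
        exact ⟨a.symm, b.symm, c.symm, d.symm, e.symm⟩
      refine ⟨A, fun u => ⟨?_, fun hu => ?_⟩⟩
      · intro hu
        obtain ⟨x, hx, hxu⟩ := h'.has u hu
        change (U m).lev (e x) = ⊤ at hx
        change (U m).lab (e x) = u at hxu
        have h3 : u ≤ (U m).lab c := by
          rcases (e x).2 with h2 | ⟨i, hi, h2⟩
          · exact (h2 hx).elim
          · have hi' : i = c := hi
            subst hi'
            rcases h2 with h2 | h2
            · rw [h2, hxu]
            · rw [← hxu]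
              exact (full_U m).lab _ _ h2
        rw [hcl, Fin.le_def] at h3
        simp only at h3
        omega
      · have hmem : c ∈ part (U m) {c} := Or.inr ⟨c, rfl, Or.inl rfl⟩
        have h3 : Has (((U m).sub (part (U m) {c})).pull e) ⟨(k : ℕ) - 1, hk1⟩ := by
          refine ⟨e.symm ⟨c, hmem⟩, ?_, ?_⟩
          · change (U m).lev (e (e.symm ⟨c, hmem⟩)) = ⊤
            rw [e.apply_symm_apply]; exact hct
          · change (U m).lab (e (e.symm ⟨c, hmem⟩)) = _
            rw [e.apply_symm_apply]; exact hcl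
        have h4 : Has A.dat ⟨(k : ℕ) - 1, hk1⟩ := h.has _ h3
        refine h4.lower A.gen ?_
        rw [Fin.le_def]
        simp only
        omega
  obtain ⟨A, hA⟩ := key
  refine ⟨A, ?_⟩
  have hA' := A.t_spec
  apply Fin.ext
  by_contra hne
  rcases lt_or_gt_of_ne hne with hlt | hlt
  · have h3 : (A.t : ℕ) < m + 1 := by
      have := k.2
      omega
    have h4 := (hA' ⟨A.t, h3⟩).1 ((hA _).2 hlt)
    exact lt_irrefl _ h4
  · have h3 : (k : ℕ) < m + 1 := by
      have := A.t.2
      omega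
    have h4 := (hA ⟨k, h3⟩).1 ((hA' _).2 hlt)
    exact lt_irrefl _ h4

end Pool.Agent.Q209.BE
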