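import Mathlib

/-!
# Levelled partial orders: the language, back-and-forth, quantifier reduction
-/

namespace Pool.Agent.Q209.BE

open FirstOrder FirstOrder.Language

/-- the relation symbols: a partial order, an arbitrary binary relation, labels, levels -/
inductive Rl (m : ℕ) : ℕ → Type
  | lt : Rl m 2
  | ad : Rl m 2
  | lb (j : Fin (m + 1)) : Rl m 1
  | lv (n : ℕ) : Rl m 1

/-- the language -/
def Lg (m : ℕ) : FirstOrder.Language.{0, 0} := ⟨fun _ => Empty, Rl m⟩

/-- data of a levelled order -/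
structure Dat (m : ℕ) (M : Type) where
  lt : M → M → Prop
  ad : M → M → Prop
  lab : M → Fin (m + 1)
  lev : M → ℕ∞

variable {m : ℕ} {M N P : Type}

/-- the structure given by data -/
@[reducible] def Dat.str (D : Dat m M) : (Lg m).Structure M where
  funMap := fun f _ => Empty.elim f
  RelMap := fun {n} r =>
    match n, r with
    | _, Rl.lt => fun v => D.lt (v 0) (v 1)
    | _, Rl.ad => fun v => D.ad (v 0) (v 1)
    | _, Rl.lb j => fun v => D.lab (v 0) = j
    | _, Rl.lv q => fun v => D.lev (v 0) = (q : ℕ∞)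

/-- raw relations of a structure -/
def rlt (m : ℕ) {M : Type} [(Lg m).Structure M] (x y : M) : Prop :=
  Structure.RelMap (L := Lg m) (Rl.lt : Rl m 2) ![x, y]
def rad (m : ℕ) {M : Type} [(Lg m).Structure M] (x y : M) : Prop :=
  Structure.RelMap (L := Lg m) (Rl.ad : Rl m 2) ![x, y]
def rlb {m : ℕ} {M : Type} [(Lg m).Structure M] (j : Fin (m + 1)) (x : M) : Prop :=
  Structure.RelMap (L := Lg m) (Rl.lb j : Rl m 1) ![x]
def rlv (m : ℕ) {M : Type} [(Lg m).Structure M] (q : ℕ) (x : M) : Prop :=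
  Structure.RelMap (L := Lg m) (Rl.lv q : Rl m 1) ![x]

/-- `D` describes the structure on `M` -/
structure Descr (D : Dat m M) [(Lg m).Structure M] : Prop where
  lt : ∀ x y, rlt m x y ↔ D.lt x y
  ad : ∀ x y, rad m x y ↔ D.ad x y
  lb : ∀ j x, rlb j x ↔ D.lab x = j
  lv : ∀ q x, rlv m q x ↔ D.lev x = (q : ℕ∞)

theorem descr_str (D : Dat m M) : @Descr m M D D.str := by
  let _ := D.str
  constructor
  · intro x y; exact Iff.rfl
  · intro x y; exact Iff.rfl
  · intro x y; exact Iff.rfl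
  · intro x y; exact Iff.rfl

/-- raw equivalence of tuples up to level `k` -/
def REqv (m : ℕ) {M N : Type} [(Lg m).Structure M] [(Lg m).Structure N] (k : ℕ) {ι : Type}
    (v : ι → M) (w : ι → N) : Prop :=
  ∀ i j, (rlt m (v i) (v j) ↔ rlt m (w i) (w j)) ∧ (rad m (v i) (v j) ↔ rad m (w i) (w j)) ∧
    (v i = v j ↔ w i = w j) ∧ (∀ u : Fin (m + 1), rlb u (v i) ↔ rlb u (w i)) ∧
    (∀ q < k, rlv m q (v i) ↔ rlv m q (w i))

/-- equivalence of tuples up to level `k` -/
def Eqv (D : Dat m M) (E : Dat m N) (k : ℕ) {ι : Type} (v : ι → M) (w : ι → N) : Prop :=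
  ∀ i j, (D.lt (v i) (v j) ↔ E.lt (w i) (w j)) ∧ (D.ad (v i) (v j) ↔ E.ad (w i) (w j)) ∧
    (v i = v j ↔ w i = w j) ∧ D.lab (v i) = E.lab (w i) ∧
    (∀ q : ℕ, q < k → (D.lev (v i) = (q : ℕ∞) ↔ E.lev (w i) = (q : ℕ∞)))

theorem reqv_iff {D : Dat m M} {E : Dat m N} [(Lg m).Structure M] [(Lg m).Structure N]
    (hD : Descr D) (hE : Descr E) (k : ℕ) {ι : Type} (v : ι → M) (w : ι → N) :
    REqv m k v w ↔ Eqv D E k v w := by
  unfold REqv Eqv
  refine forall_congr' fun i => forall_congr' fun j => ?_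
  rw [hD.lt, hE.lt, hD.ad, hE.ad]
  have h1 : (∀ u : Fin (m + 1), rlb u (v i) ↔ rlb u (w i)) ↔ D.lab (v i) = E.lab (w i) := by
    constructor
    · intro h
      have := (h (D.lab (v i))).1 ((hD.lb _ _).2 rfl)
      exact ((hE.lb _ _).1 this).symm
    · intro h u
      rw [hD.lb, hE.lb, h]
  rw [h1]
  have h2 : (∀ q < k, rlv m q (v i) ↔ rlv m q (w i)) ↔
      (∀ q : ℕ, q < k → (D.lev (v i) = (q : ℕ∞) ↔ E.lev (w i) = (q : ℕ∞))) := by
    refine forall_congr' fun q => forall_congr' fun _ => ?_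
    rw [hD.lv, hE.lv]
  rw [h2]

theorem Eqv.symm {D : Dat m M} {E : Dat m N} {k : ℕ} {ι : Type} {v : ι → M} {w : ι → N}
    (h : Eqv D E k v w) : Eqv E D k w v := by
  intro i j
  obtain ⟨a, b, c, d, e⟩ := h i j
  exact ⟨a.symm, b.symm, c.symm, d.symm, fun q hq => (e q hq).symm⟩

theorem Eqv.trans {D : Dat m M} {E : Dat m N} {F : Dat m P} {k : ℕ} {ι : Type} {v : ι → M}
    {w : ι → N} {z : ι → P} (h : Eqv D E k v w) (h' : Eqv E F k w z) : Eqv D F k v z := by
  intro i j
  obtain ⟨a, b, c, d, e⟩ := h i j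
  obtain ⟨a', b', c', d', e'⟩ := h' i j
  exact ⟨a.trans a', b.trans b', c.trans c', d.trans d', fun q hq => (e q hq).trans (e' q hq)⟩

theorem Eqv.comp {D : Dat m M} {E : Dat m N} {k : ℕ} {ι κ : Type} {v : ι → M} {w : ι → N}
    (h : Eqv D E k v w) (f : κ → ι) : Eqv D E k (v ∘ f) (w ∘ f) :=
  fun i j => h (f i) (f j)

theorem Eqv.mono {D : Dat m M} {E : Dat m N} {k l : ℕ} (hkl : l ≤ k) {ι : Type} {v : ι → M}
    {w : ι → N} (h : Eqv D E k v w) : Eqv D E l v w := by
  intro i j
  obtain ⟨a, b, c, d, e⟩ := h i j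
  exact ⟨a, b, c, d, fun q hq => e q (lt_of_lt_of_le hq hkl)⟩

/-- forth property -/
def Forth (D : Dat m M) (E : Dat m N) (k : ℕ) : Prop :=
  ∀ (ι : Type) [Finite ι] (v : ι → M) (w : ι → N), Eqv D E k v w → ∀ a : M, ∃ b : N,
    Eqv D E k (fun o : Option ι => o.elim a v) (fun o : Option ι => o.elim b w)

theorem term_var {α : Type} (t : (Lg m).Term α) : ∃ i, t = Term.var i := by
  cases t with
  | var i => exact ⟨i, rfl⟩
  | func f ts => exact Empty.elim f

theorem rel_two [(Lg m).Structure M] (r : Rl m 2) (f : Fin 2 → M) :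
    Structure.RelMap (L := Lg m) (M := M) r f ↔
      Structure.RelMap (L := Lg m) (M := M) r ![f 0, f 1] := by
  have : f = ![f 0, f 1] := by
    funext i
    fin_cases i <;> rfl
  exact iff_of_eq (congrArg _ this)

theorem rel_one [(Lg m).Structure M] (r : Rl m 1) (f : Fin 1 → M) :
    Structure.RelMap (L := Lg m) (M := M) r f ↔
      Structure.RelMap (L := Lg m) (M := M) r ![f 0] := by
  have : f = ![f 0] := by
    funext i
    fin_cases i
    rfl
  exact iff_of_eq (congrArg _ this)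

theorem realize_iff {D : Dat m M} {E : Dat m N} [(Lg m).Structure M] [(Lg m).Structure N]
    (hD : Descr D) (hE : Descr E) (hf : ∀ k, Forth D E k) (hb : ∀ k, Forth E D k)
    {α : Type} [Finite α] {n : ℕ} (φ : (Lg m).BoundedFormula α n) :
    ∃ k, ∀ (v : α → M) (xs : Fin n → M) (w : α → N) (ys : Fin n → N),
      Eqv D E k (Sum.elim v xs) (Sum.elim w ys) → (φ.Realize v xs ↔ φ.Realize w ys) := by
  induction φ with
  | falsum => exact ⟨0, fun _ _ _ _ _ => Iff.rfl⟩
  | equal t₁ t₂ =>
    refine ⟨0, fun v xs w ys h => ?_⟩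
    obtain ⟨i, rfl⟩ := term_var t₁
    obtain ⟨j, rfl⟩ := term_var t₂
    exact (h i j).2.2.1
  | @rel n l R ts =>
    have hts : ∀ i, ∃ a, ts i = Term.var a := fun i => term_var (ts i)
    choose a ha using hts
    have hts' : ts = fun i => Term.var (a i) := funext ha
    subst hts'
    clear ha
    change Rl m l at R
    cases R with
    | lt =>
      refine ⟨0, fun v xs w ys h => ?_⟩
      have h1 : rlt m (Sum.elim v xs (a 0)) (Sum.elim v xs (a 1)) ↔
          rlt m (Sum.elim w ys (a 0)) (Sum.elim w ys (a 1)) :=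
        (hD.lt _ _).trans ((h _ _).1.trans (hE.lt _ _).symm)
      exact (rel_two (Rl.lt) (fun i => Sum.elim v xs (a i))).trans
        (h1.trans (rel_two (Rl.lt) (fun i => Sum.elim w ys (a i))).symm)
    | ad =>
      refine ⟨0, fun v xs w ys h => ?_⟩
      have h1 : rad m (Sum.elim v xs (a 0)) (Sum.elim v xs (a 1)) ↔
          rad m (Sum.elim w ys (a 0)) (Sum.elim w ys (a 1)) :=
        (hD.ad _ _).trans ((h _ _).2.1.trans (hE.ad _ _).symm)
      exact (rel_two (Rl.ad) (fun i => Sum.elim v xs (a i))).trans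
        (h1.trans (rel_two (Rl.ad) (fun i => Sum.elim w ys (a i))).symm)
    | lb j =>
      refine ⟨0, fun v xs w ys h => ?_⟩
      have h1 : rlb j (Sum.elim v xs (a 0)) ↔ rlb j (Sum.elim w ys (a 0)) := by
        rw [hD.lb, hE.lb, (h (a 0) (a 0)).2.2.2.1]
      exact (rel_one (Rl.lb j) (fun i => Sum.elim v xs (a i))).trans
        (h1.trans (rel_one (Rl.lb j) (fun i => Sum.elim w ys (a i))).symm)
    | lv q =>
      refine ⟨q + 1, fun v xs w ys h => ?_⟩
      have h1 : rlv m q (Sum.elim v xs (a 0)) ↔ rlv m q (Sum.elim w ys (a 0)) := by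
        rw [hD.lv, hE.lv]
        exact (h (a 0) (a 0)).2.2.2.2 q (Nat.lt_succ_self q)
      exact (rel_one (Rl.lv q) (fun i => Sum.elim v xs (a i))).trans
        (h1.trans (rel_one (Rl.lv q) (fun i => Sum.elim w ys (a i))).symm)
  | imp φ ψ ih₁ ih₂ =>
    obtain ⟨k₁, h₁⟩ := ih₁
    obtain ⟨k₂, h₂⟩ := ih₂
    refine ⟨max k₁ k₂, fun v xs w ys h => ?_⟩
    rw [BoundedFormula.realize_imp, BoundedFormula.realize_imp,
      h₁ v xs w ys (h.mono (le_max_left _ _)), h₂ v xs w ys (h.mono (le_max_right _ _))]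
  | @all n φ ih =>
    obtain ⟨k, hk⟩ := ih
    refine ⟨k, fun v xs w ys h => ?_⟩
    have key : ∀ (a : M) (b : N),
        Eqv D E k (fun o : Option (α ⊕ Fin n) => o.elim a (Sum.elim v xs))
          (fun o : Option (α ⊕ Fin n) => o.elim b (Sum.elim w ys)) →
        Eqv D E k (Sum.elim v (Fin.snoc xs a : Fin (n + 1) → M))
          (Sum.elim w (Fin.snoc ys b : Fin (n + 1) → N)) := by
      intro a b hab
      let f : α ⊕ Fin (n + 1) → Option (α ⊕ Fin n) := fun s =>
        match s with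
        | Sum.inl x => some (Sum.inl x)
        | Sum.inr i => if hi : (i : ℕ) < n then some (Sum.inr ⟨i, hi⟩) else none
      have e1 : (Sum.elim v (Fin.snoc xs a : Fin (n + 1) → M)) =
          (fun o : Option (α ⊕ Fin n) => o.elim a (Sum.elim v xs)) ∘ f := by
        funext s
        rcases s with x | i
        · rfl
        · refine Fin.lastCases ?_ (fun i => ?_) i
          · simp [f]
          · simp [f]
      have e2 : (Sum.elim w (Fin.snoc ys b : Fin (n + 1) → N)) =
          (fun o : Option (α ⊕ Fin n) => o.elim b (Sum.elim w ys)) ∘ f := by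
        funext s
        rcases s with x | i
        · rfl
        · refine Fin.lastCases ?_ (fun i => ?_) i
          · simp [f]
          · simp [f]
      rw [e1, e2]
      exact hab.comp f
    rw [BoundedFormula.realize_all, BoundedFormula.realize_all]
    constructor
    · intro hall b
      obtain ⟨a, hab⟩ := hb k _ _ _ h.symm b
      exact (hk v (Fin.snoc xs a) w (Fin.snoc ys b) (key a b hab.symm)).1 (hall a)
    · intro hall a
      obtain ⟨b, hab⟩ := hf k _ _ _ h a
      exact (hk v (Fin.snoc xs a) w (Fin.snoc ys b) (key a b hab)).2 (hall b)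

theorem sentence_iff {D : Dat m M} {E : Dat m N} [(Lg m).Structure M] [(Lg m).Structure N]
    (hD : Descr D) (hE : Descr E) (hf : ∀ k, Forth D E k) (hb : ∀ k, Forth E D k)
    (φ : (Lg m).Sentence) : M ⊨ φ ↔ N ⊨ φ := by
  obtain ⟨k, hk⟩ := realize_iff hD hE hf hb φ
  refine hk default default default default ?_
  intro i
  rcases i with i | i
  · exact i.elim
  · exact i.elim0

/-- a map preserving everything is elementary -/
noncomputable def elem {D : Dat m M} {E : Dat m N} [(Lg m).Structure M] [(Lg m).Structure N]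
    (hD : Descr D) (hE : Descr E) (hf : ∀ k, Forth D E k) (hb : ∀ k, Forth E D k)
    (e : M → N) (he : ∀ k, Eqv D E k (id : M → M) e) : M ↪ₑ[Lg m] N where
  toFun := e
  map_formula' := by
    intro n φ x
    obtain ⟨k, hk⟩ := realize_iff hD hE hf hb φ
    have h1 := (he k).comp (Sum.elim x (default : Fin 0 → M))
    have h2 : (id : M → M) ∘ (Sum.elim x (default : Fin 0 → M)) = Sum.elim x (default : Fin 0 → M) :=
      rfl
    have h3 : e ∘ (Sum.elim x (default : Fin 0 → M)) = Sum.elim (e ∘ x) (default : Fin 0 → N) := by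
      funext s
      rcases s with s | s
      · rfl
      · exact s.elim0
    rw [h2, h3] at h1
    exact (hk x default (e ∘ x) default h1).symm

end Pool.Agent.Q209.BE
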