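import Pool.Agent.Q209.BE.Core

/-!
# Generic levelled orders: one-point extensions, back-and-forth, embeddings
-/

namespace Pool.Agent.Q209.BE

variable {m : ℕ} {M N P : Type}

/-- a pattern of a new point over a tuple -/
structure Pat (m : ℕ) (ι : Type) where
  dn : ι → Prop
  up : ι → Prop
  ot : ι → Prop
  inn : ι → Prop
  lp : Prop
  lb : Fin (m + 1)

/-- the pattern is consistent over the tuple -/
structure Cons (D : Dat m M) {ι : Type} (w : ι → M) (p : Pat m ι) : Prop where
  du : ∀ i j, p.dn i → p.up j → D.lt (w i) (w j)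
  dc : ∀ i j, p.dn j → (w i = w j ∨ D.lt (w i) (w j)) → p.dn i
  uc : ∀ i j, p.up i → (w i = w j ∨ D.lt (w i) (w j)) → p.up j
  dl : ∀ i, p.dn i → p.lb ≤ D.lab (w i)
  ul : ∀ i, p.up i → D.lab (w i) ≤ p.lb
  eo : ∀ i j, w i = w j → (p.ot i → p.ot j)
  ei : ∀ i j, w i = w j → (p.inn i → p.inn j)

/-- the point realises the pattern -/
structure Rea (D : Dat m M) {ι : Type} (w : ι → M) (p : Pat m ι) (y : M) : Prop where
  ne : ∀ i, y ≠ w i
  dn : ∀ i, D.lt (w i) y ↔ p.dn i
  up : ∀ i, D.lt y (w i) ↔ p.up i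
  ot : ∀ i, D.ad y (w i) ↔ p.ot i
  inn : ∀ i, D.ad (w i) y ↔ p.inn i
  lp : D.ad y y ↔ p.lp
  lb : D.lab y = p.lb

/-- levelled orders -/
structure Ord (D : Dat m M) : Prop where
  irr : ∀ x, ¬ D.lt x x
  tr : ∀ x y z, D.lt x y → D.lt y z → D.lt x z
  lab : ∀ x y, D.lt x y → D.lab y ≤ D.lab x
  lev : ∀ x y, D.lt x y → D.lev x ≤ D.lev y

/-- generic levelled orders -/
structure Gen (D : Dat m M) : Prop extends Ord D where
  ext0 : ∀ (ι : Type) [Finite ι] (w : ι → M) (p : Pat m ι), Cons D w p → ∃ y, Rea D w p y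
  ext1 : ∀ (ι : Type) [Finite ι] (w : ι → M) (p : Pat m ι), Cons D w p → ∀ n : ℕ,
    (∀ i, p.dn i → D.lev (w i) ≤ (n : ℕ∞)) → (∀ i, p.up i → (n : ℕ∞) ≤ D.lev (w i)) →
    ∃ y, Rea D w p y ∧ D.lev y = (n : ℕ∞)

theorem Eqv.lev_le {D : Dat m M} {E : Dat m N} {k : ℕ} {ι : Type} {v : ι → M} {w : ι → N}
    (h : Eqv D E k v w) (i : ι) (hi : (k : ℕ∞) ≤ D.lev (v i)) : (k : ℕ∞) ≤ E.lev (w i) := by
  by_contra hlt
  rw [not_le] at hlt
  obtain ⟨q, hq⟩ := ENat.ne_top_iff_exists.1 (ne_top_of_lt hlt)
  rw [← hq, Nat.cast_lt] at hlt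
  have := ((h i i).2.2.2.2 q hlt).2 hq.symm
  rw [this, Nat.cast_le] at hi
  omega

/-- the pattern of a point over a tuple -/
def pat (D : Dat m M) {ι : Type} (v : ι → M) (a : M) : Pat m ι where
  dn := fun i => D.lt (v i) a
  up := fun i => D.lt a (v i)
  ot := fun i => D.ad a (v i)
  inn := fun i => D.ad (v i) a
  lp := D.ad a a
  lb := D.lab a

theorem cons_pat {D : Dat m M} {E : Dat m N} (hD : Ord D) {k : ℕ} {ι : Type}
    {v : ι → M} {w : ι → N} (h : Eqv D E k v w) (a : M) : Cons E w (pat D v a) where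
  du := fun i j hi hj => ((h i j).1).1 (hD.tr _ _ _ hi hj)
  dc := fun i j hj hij => by
    rcases hij with hij | hij
    · have := (h i j).2.2.1.2 hij
      change D.lt (v i) a
      rw [this]; exact hj
    · exact hD.tr _ _ _ ((h i j).1.2 hij) hj
  uc := fun i j hi hij => by
    rcases hij with hij | hij
    · have := (h i j).2.2.1.2 hij
      change D.lt a (v j)
      rw [← this]; exact hi
    · exact hD.tr _ _ _ hi ((h i j).1.2 hij)
  dl := fun i hi => by
    rw [← (h i i).2.2.2.1]; exact hD.lab _ _ hi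
  ul := fun i hi => by
    rw [← (h i i).2.2.2.1]; exact hD.lab _ _ hi
  eo := fun i j hij hi => by
    have := (h i j).2.2.1.2 hij
    change D.ad a (v j)
    rw [← this]; exact hi
  ei := fun i j hij hi => by
    have := (h i j).2.2.1.2 hij
    change D.ad (v j) a
    rw [← this]; exact hi

theorem eqv_option {D : Dat m M} {E : Dat m N} (hD : Ord D) (hE : Ord E) {k : ℕ} {ι : Type}
    {v : ι → M} {w : ι → N} (h : Eqv D E k v w) {a : M} {b : N} (ha : ∀ i, v i ≠ a)
    (hb : Rea E w (pat D v a) b)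
    (hl : ∀ q : ℕ, q < k → (D.lev a = (q : ℕ∞) ↔ E.lev b = (q : ℕ∞))) :
    Eqv D E k (fun o : Option ι => o.elim a v) (fun o : Option ι => o.elim b w) := by
  intro i j
  rcases i with _ | i <;> rcases j with _ | j
  · refine ⟨⟨fun h' => (hD.irr _ h').elim, fun h' => (hE.irr _ h').elim⟩, hb.lp.symm, by simp,
      hb.lb.symm, hl⟩
  · refine ⟨(hb.up j).symm, (hb.ot j).symm,
      ⟨fun h' => (ha j h'.symm).elim, fun h' => (hb.ne j h').elim⟩, hb.lb.symm, hl⟩
  · refine ⟨(hb.dn i).symm, (hb.inn i).symm,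
      ⟨fun h' => (ha i h').elim, fun h' => (hb.ne i h'.symm).elim⟩, (h i i).2.2.2.1,
      (h i i).2.2.2.2⟩
  · exact h i j

theorem forth {D : Dat m M} {E : Dat m N} (hD : Gen D) (hE : Gen E) (k : ℕ) : Forth D E k := by
  intro ι _ v w h a
  by_cases ha : ∃ i, v i = a
  · obtain ⟨i, hi⟩ := ha
    refine ⟨w i, ?_⟩
    have e1 : (fun o : Option ι => o.elim a v) = v ∘ (fun o : Option ι => o.getD i) := by
      funext o
      rcases o with _ | o
      · exact hi.symm
      · rfl
    have e2 : (fun o : Option ι => o.elim (w i) w) = w ∘ (fun o : Option ι => o.getD i) := by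
      funext o
      rcases o with _ | o <;> rfl
    rw [e1, e2]
    exact h.comp _
  · have ha' : ∀ i, v i ≠ a := fun i hi => ha ⟨i, hi⟩
    have hc : Cons E w (pat D v a) := cons_pat hD.toOrd h a
    by_cases hlt : D.lev a < (k : ℕ∞)
    · obtain ⟨n, hn⟩ := ENat.ne_top_iff_exists.1 (ne_top_of_lt hlt)
      rw [← hn, Nat.cast_lt] at hlt
      have h1 : ∀ i, (pat D v a).dn i → E.lev (w i) ≤ (n : ℕ∞) := by
        intro i hi
        have h2 := hD.lev _ _ hi
        rw [← hn] at h2
        obtain ⟨q, hq⟩ := ENat.ne_top_iff_exists.1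
          (ne_top_of_le_ne_top (ENat.natCast_ne_top n) h2)
        rw [← hq, Nat.cast_le] at h2
        have := ((h i i).2.2.2.2 q (lt_of_le_of_lt h2 hlt)).1 hq.symm
        rw [this, Nat.cast_le]; exact h2
      have h2 : ∀ i, (pat D v a).up i → (n : ℕ∞) ≤ E.lev (w i) := by
        intro i hi
        have h3 := hD.lev _ _ hi
        rw [← hn] at h3
        exact (h.mono (l := n) hlt.le).lev_le i h3
      obtain ⟨b, hb, hbn⟩ := hE.ext1 ι w _ hc n h1 h2
      exact ⟨b, eqv_option hD.toOrd hE.toOrd h ha' hb (fun q _ => by rw [← hn, hbn])⟩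
    · rw [not_lt] at hlt
      have key : ∃ b, Rea E w (pat D v a) b ∧ (k : ℕ∞) ≤ E.lev b := by
        by_cases ht : ∃ i, (pat D v a).dn i ∧ E.lev (w i) = ⊤
        · obtain ⟨i, hi, hit⟩ := ht
          obtain ⟨b, hb⟩ := hE.ext0 ι w _ hc
          refine ⟨b, hb, ?_⟩
          have := hE.lev _ _ ((hb.dn i).2 hi)
          rw [hit, top_le_iff] at this
          rw [this]; exact le_top
        · let f : Option {i // (pat D v a).dn i} → ℕ∞ := fun o => o.elim (k : ℕ∞)
            (fun i => E.lev (w i.1))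
          obtain ⟨x0, hx0⟩ := Finite.exists_max f
          have hne : f x0 ≠ ⊤ := by
            rcases x0 with _ | i
            · exact ENat.natCast_ne_top k
            · intro h'
              exact ht ⟨i.1, i.2, h'⟩
          obtain ⟨l, hl⟩ := ENat.ne_top_iff_exists.1 hne
          have hkl : (k : ℕ∞) ≤ l := by rw [hl]; exact hx0 none
          have h1 : ∀ i, (pat D v a).dn i → E.lev (w i) ≤ (l : ℕ∞) := by
            intro i hi
            rw [hl]; exact hx0 (some ⟨i, hi⟩)
          have h2 : ∀ i, (pat D v a).up i → (l : ℕ∞) ≤ E.lev (w i) := by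
            intro i hi
            rw [hl]
            rcases x0 with _ | j
            · exact h.lev_le i (hlt.trans (hD.lev _ _ hi))
            · exact hE.lev _ _ (hc.du _ _ j.2 hi)
          obtain ⟨b, hb, hbl⟩ := hE.ext1 ι w _ hc l h1 h2
          exact ⟨b, hb, by rw [hbl]; exact hkl⟩
      obtain ⟨b, hb, hbk⟩ := key
      refine ⟨b, eqv_option hD.toOrd hE.toOrd h ha' hb (fun q hq => ?_)⟩
      constructor
      · intro h'
        rw [h', Nat.cast_le] at hlt
        omega
      · intro h'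
        rw [h', Nat.cast_le] at hbk
        omega

/-- building a sequence step by step -/
theorem build {N : Type} (Good : ∀ n : ℕ, (Fin n → N) → Prop)
    (h0 : Good 0 (fun i => i.elim0))
    (hs : ∀ n (h : Fin n → N), Good n h → ∃ y, Good (n + 1) (Fin.snoc h y : Fin (n + 1) → N)) :
    ∃ h : ℕ → N, ∀ n, Good n (fun i => h i) := by
  classical
  let F : ∀ n, {h : Fin n → N // Good n h} := fun n => Nat.rec ⟨fun i => i.elim0, h0⟩
    (fun n f => ⟨(Fin.snoc f.1 (Classical.choose (hs n f.1 f.2)) : Fin (n + 1) → N),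
      Classical.choose_spec (hs n f.1 f.2)⟩) n
  refine ⟨fun n => (F (n + 1)).1 (Fin.last n), fun n => ?_⟩
  have key : ∀ n, (fun i : Fin n => (F ((i : ℕ) + 1)).1 (Fin.last (i : ℕ))) = (F n).1 := by
    intro n
    induction n with
    | zero => funext i; exact i.elim0
    | succ n ih =>
      funext i
      refine Fin.lastCases ?_ (fun i => ?_) i
      · rfl
      · have h1 : (F (n + 1)).1 (Fin.castSucc i) = (F n).1 i := by
          change (Fin.snoc (F n).1 (Classical.choose (hs n (F n).1 (F n).2)) :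
            Fin (n + 1) → N) (Fin.castSucc i) = _
          rw [Fin.snoc_castSucc]
        rw [h1, ← ih]
        rfl
  rw [key n]
  exact (F n).2

/-- full equivalence -/
def EqF (D : Dat m M) (E : Dat m N) {ι : Type} (v : ι → M) (w : ι → N) : Prop :=
  ∀ i j, (D.lt (v i) (v j) ↔ E.lt (w i) (w j)) ∧ (D.ad (v i) (v j) ↔ E.ad (w i) (w j)) ∧
    (v i = v j ↔ w i = w j) ∧ D.lab (v i) = E.lab (w i) ∧ D.lev (v i) = E.lev (w i)

theorem EqF.eqv {D : Dat m M} {E : Dat m N} {ι : Type} {v : ι → M} {w : ι → N}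
    (h : EqF D E v w) (k : ℕ) : Eqv D E k v w := by
  intro i j
  obtain ⟨a, b, c, d, e⟩ := h i j
  exact ⟨a, b, c, d, fun q _ => by rw [e]⟩

theorem eqF_snoc {D : Dat m M} {E : Dat m N} (g : ℕ → M) {n : ℕ} {h : Fin n → N} {y : N}
    (hD : Ord D) (hE : Ord E)
    (hh : EqF D E (fun i : Fin n => g i) h)
    (hy : ∀ i : Fin n, (D.lt (g i) (g n) ↔ E.lt (h i) y) ∧ (D.lt (g n) (g i) ↔ E.lt y (h i)) ∧
      (D.ad (g i) (g n) ↔ E.ad (h i) y) ∧ (D.ad (g n) (g i) ↔ E.ad y (h i)) ∧
      (g i = g n ↔ h i = y))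
    (ha : D.ad (g n) (g n) ↔ E.ad y y) (hl : D.lab (g n) = E.lab y)
    (hv : D.lev (g n) = E.lev y) :
    EqF D E (fun i : Fin (n + 1) => g i) (Fin.snoc h y : Fin (n + 1) → N) := by
  intro i j
  refine Fin.lastCases ?_ (fun i => ?_) i
  · refine Fin.lastCases ?_ (fun j => ?_) j
    · simp only [Fin.snoc_last, Fin.val_last]
      exact ⟨⟨fun h' => (hD.irr _ h').elim, fun h' => (hE.irr _ h').elim⟩, ha, by simp, hl, hv⟩
    · simp only [Fin.snoc_last, Fin.val_last, Fin.snoc_castSucc, Fin.val_castSucc]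
      obtain ⟨a, b, c, d, e⟩ := hy j
      exact ⟨b, d, eq_comm.trans (e.trans eq_comm), hl, hv⟩
  · refine Fin.lastCases ?_ (fun j => ?_) j
    · simp only [Fin.snoc_last, Fin.val_last, Fin.snoc_castSucc, Fin.val_castSucc]
      obtain ⟨a, b, c, d, e⟩ := hy i
      exact ⟨a, c, e, (hh i i).2.2.2.1, (hh i i).2.2.2.2⟩
    · simp only [Fin.snoc_castSucc, Fin.val_castSucc]
      exact hh i j

/-- the embedding theorem -/
theorem embed {D : Dat m M} {E : Dat m N} (hD : Gen D) (hE : Gen E) [Countable M] [Nonempty M]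
    {κ : Type} [Finite κ] [Subsingleton κ] (c : κ → N) (hc : ∀ i, E.lev (c i) = ⊤)
    (hl : ∀ i x, D.lev x = ⊤ → D.lab x ≤ E.lab (c i)) (hκ : ∀ x, D.lev x = ⊤ → Nonempty κ) :
    ∃ e : M → N, EqF D E (id : M → M) e := by
  obtain ⟨g, hg⟩ := exists_surjective_nat M
  let Good : ∀ n : ℕ, (Fin n → N) → Prop := fun n h =>
    EqF D E (fun i : Fin n => g i) h ∧
      ∀ i u, (E.lt (c u) (h i) ↔ D.lev (g i) = ⊤) ∧ ¬ E.lt (h i) (c u) ∧ h i ≠ c u
  have hb : ∃ h : ℕ → N, ∀ n, Good n (fun i => h i) := by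
    refine build Good ⟨fun i => i.elim0, fun i => i.elim0⟩ ?_
    rintro n h ⟨h1, h2⟩
    by_cases hx : ∃ i : Fin n, g i = g n
    · obtain ⟨i0, hi0⟩ := hx
      refine ⟨h i0, ?_, ?_⟩
      · refine eqF_snoc g hD.toOrd hE.toOrd h1 ?_ ?_ ?_ ?_
        · intro i
          rw [← hi0]
          exact ⟨(h1 i i0).1, (h1 i0 i).1, (h1 i i0).2.1, (h1 i0 i).2.1, (h1 i i0).2.2.1⟩
        · rw [← hi0]; exact (h1 i0 i0).2.1
        · rw [← hi0]; exact (h1 i0 i0).2.2.2.1
        · rw [← hi0]; exact (h1 i0 i0).2.2.2.2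
      · intro i u
        refine Fin.lastCases ?_ (fun i => ?_) i
        · simp only [Fin.snoc_last, Fin.val_last]
          rw [← hi0]; exact h2 i0 u
        · simp only [Fin.snoc_castSucc, Fin.val_castSucc]
          exact h2 i u
    · have hx' : ∀ i : Fin n, g i ≠ g n := fun i hi => hx ⟨i, hi⟩
      let w : Fin n ⊕ κ → N := Sum.elim h c
      let p : Pat m (Fin n ⊕ κ) :=
        { dn := Sum.elim (fun i => D.lt (g i) (g n)) (fun _ => D.lev (g n) = ⊤)
          up := Sum.elim (fun i => D.lt (g n) (g i)) (fun _ => False)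
          ot := Sum.elim (fun i => D.ad (g n) (g i)) (fun _ => False)
          inn := Sum.elim (fun i => D.ad (g i) (g n)) (fun _ => False)
          lp := D.ad (g n) (g n)
          lb := D.lab (g n) }
      have hcons : Cons E w p := by
        constructor
        · rintro (i | u) (j | u') hi hj
          · exact (h1 i j).1.1 (hD.tr _ _ _ hi hj)
          · exact hj.elim
          · have h3 : D.lev (g n) = ⊤ := hi
            have h4 := hD.lev _ _ (show D.lt (g n) (g j) from hj)
            rw [h3, top_le_iff] at h4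
            exact (h2 j u).1.2 h4
          · exact hj.elim
        · rintro (i | u) (j | u') hj hij
          · rcases hij with hij | hij
            · have he : g i = g j := (h1 i j).2.2.1.2 hij
              change D.lt (g i) (g n)
              rw [he]; exact hj
            · exact hD.tr _ _ _ ((h1 i j).1.2 hij) hj
          · rcases hij with hij | hij
            · exact ((h2 i u').2.2 hij).elim
            · exact ((h2 i u').2.1 hij).elim
          · rcases hij with hij | hij
            · exact ((h2 j u).2.2 hij.symm).elim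
            · have h3 : D.lev (g j) = ⊤ := (h2 j u).1.1 hij
              have h4 := hD.lev _ _ (show D.lt (g j) (g n) from hj)
              rw [h3, top_le_iff] at h4
              exact h4
          · exact hj
        · rintro (i | u) (j | u') hi hij
          · rcases hij with hij | hij
            · have he : g i = g j := (h1 i j).2.2.1.2 hij
              change D.lt (g n) (g j)
              rw [← he]; exact hi
            · exact hD.tr _ _ _ hi ((h1 i j).1.2 hij)
          · rcases hij with hij | hij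
            · exact ((h2 i u').2.2 hij).elim
            · exact ((h2 i u').2.1 hij).elim
          · exact hi.elim
          · exact hi.elim
        · rintro (i | u) hi
          · change D.lab (g n) ≤ E.lab (h i)
            rw [← (h1 i i).2.2.2.1]; exact hD.lab _ _ hi
          · exact hl u _ hi
        · rintro (i | u) hi
          · change E.lab (h i) ≤ D.lab (g n)
            rw [← (h1 i i).2.2.2.1]; exact hD.lab _ _ hi
          · exact hi.elim
        · rintro (i | u) (j | u') hij hi
          · have he : g i = g j := (h1 i j).2.2.1.2 hij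
            change D.ad (g n) (g j)
            rw [← he]; exact hi
          · exact ((h2 i u').2.2 hij).elim
          · exact hi.elim
          · exact hi.elim
        · rintro (i | u) (j | u') hij hi
          · have he : g i = g j := (h1 i j).2.2.1.2 hij
            change D.ad (g j) (g n)
            rw [← he]; exact hi
          · exact ((h2 i u').2.2 hij).elim
          · exact hi.elim
          · exact hi.elim
      have key : ∃ y, Rea E w p y ∧ E.lev y = D.lev (g n) := by
        by_cases ht : D.lev (g n) = ⊤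
        · obtain ⟨y, hy⟩ := hE.ext0 _ w p hcons
          obtain ⟨u⟩ := hκ _ ht
          refine ⟨y, hy, ?_⟩
          have h3 := hE.lev _ _ ((hy.dn (Sum.inr u)).2 ht)
          have h4 : E.lev (w (Sum.inr u)) = ⊤ := hc u
          rw [h4, top_le_iff] at h3
          rw [h3, ht]
        · obtain ⟨q, hq⟩ := ENat.ne_top_iff_exists.1 ht
          obtain ⟨y, hy, hyq⟩ := hE.ext1 _ w p hcons q (by
            rintro (i | u) hi
            · change E.lev (h i) ≤ _
              rw [← (h1 i i).2.2.2.2, hq]; exact hD.lev _ _ hi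
            · exact (ht hi).elim) (by
            rintro (i | u) hi
            · change _ ≤ E.lev (h i)
              rw [← (h1 i i).2.2.2.2, hq]; exact hD.lev _ _ hi
            · exact hi.elim)
          exact ⟨y, hy, by rw [hyq, hq]⟩
      obtain ⟨y, hy, hyl⟩ := key
      refine ⟨y, ?_, ?_⟩
      · refine eqF_snoc g hD.toOrd hE.toOrd h1 ?_ hy.lp.symm hy.lb.symm hyl.symm
        intro i
        exact ⟨(hy.dn (Sum.inl i)).symm, (hy.up (Sum.inl i)).symm, (hy.inn (Sum.inl i)).symm,
          (hy.ot (Sum.inl i)).symm,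
          ⟨fun h' => (hx' i h').elim, fun h' => (hy.ne (Sum.inl i) h'.symm).elim⟩⟩
      · intro i u
        refine Fin.lastCases ?_ (fun i => ?_) i
        · simp only [Fin.snoc_last, Fin.val_last]
          exact ⟨hy.dn (Sum.inr u), fun h' => (hy.up (Sum.inr u)).1 h', hy.ne (Sum.inr u)⟩
        · simp only [Fin.snoc_castSucc, Fin.val_castSucc]
          exact h2 i u
  obtain ⟨h, hh⟩ := hb
  have hfull : ∀ i j : ℕ, (D.lt (g i) (g j) ↔ E.lt (h i) (h j)) ∧
      (D.ad (g i) (g j) ↔ E.ad (h i) (h j)) ∧ (g i = g j ↔ h i = h j) ∧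
      D.lab (g i) = E.lab (h i) ∧ D.lev (g i) = E.lev (h i) := by
    intro i j
    exact (hh (max i j + 1)).1 ⟨i, by omega⟩ ⟨j, by omega⟩
  choose s hs using hg
  refine ⟨fun x => h (s x), fun x y => ?_⟩
  have := hfull (s x) (s y)
  rw [hs x, hs y] at this
  exact this

end Pool.Agent.Q209.BE
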