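import Pool.Agent.Q209.BE.Cnt

/-!
# Continuum many isomorphism types
-/

namespace Pool.Agent.Q209.BE

open FirstOrder FirstOrder.Language

variable {m : ℕ} {M N P : Type}

/-- minimal points of infinite level -/
def Mn (E : Dat m N) (x : N) : Prop := E.lev x = ⊤ ∧ ∀ y, E.lev y = ⊤ → ¬ E.lt y x

/-- the code of a structure -/
def DS (E : Dat m N) : Set ℕ := {d | ∃ x, Mn E x ∧ {y | Mn E y ∧ E.ad x y}.ncard = d + 1}

theorem DS_sub {D : Dat m M} {E : Dat m N} (e : M ≃ N) (h : EqF D E (id : M → M) e) :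
    DS D ⊆ DS E := by
  have hM : ∀ x, Mn D x ↔ Mn E (e x) := by
    intro x
    unfold Mn
    have h1 : D.lev x = E.lev (e x) := (h x x).2.2.2.2
    rw [← h1]
    constructor
    · rintro ⟨h2, h3⟩
      refine ⟨h2, fun y hy hlt => ?_⟩
      have h4 : D.lev (e.symm y) = E.lev y := by
        have := (h (e.symm y) x).2.2.2.2
        simpa using this
      have h5 : D.lt (e.symm y) x ↔ E.lt y (e x) := by
        have := (h (e.symm y) x).1
        simpa using this
      exact h3 _ (h4.trans hy) (h5.2 hlt)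
    · rintro ⟨h2, h3⟩
      refine ⟨h2, fun y hy hlt => ?_⟩
      exact h3 (e y) (((h y x).2.2.2.2).symm.trans hy) ((h y x).1.1 hlt)
  rintro d ⟨x, hx, hd⟩
  refine ⟨e x, (hM x).1 hx, ?_⟩
  rw [← hd]
  have : {y | Mn E y ∧ E.ad (e x) y} = e '' {y | Mn D y ∧ D.ad x y} := by
    ext y
    constructor
    · rintro ⟨h1, h2⟩
      refine ⟨e.symm y, ⟨(hM _).2 (by simpa using h1), ?_⟩, by simp⟩
      have := (h x (e.symm y)).2.1
      simp only [id, Equiv.apply_symm_apply] at this
      exact this.2 h2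
    · rintro ⟨z, ⟨h1, h2⟩, rfl⟩
      exact ⟨(hM z).1 h1, (h x z).2.1.1 h2⟩
  rw [this, Set.ncard_image_of_injective _ e.injective]

theorem EqF.symm {D : Dat m M} {E : Dat m N} (e : M ≃ N) (h : EqF D E (id : M → M) e) :
    EqF E D (id : N → N) e.symm := by
  intro x y
  obtain ⟨a, b, c, d, f⟩ := h (e.symm x) (e.symm y)
  simp only [id, Equiv.apply_symm_apply] at a b c d f
  exact ⟨a.symm, b.symm, c.symm, d.symm, f.symm⟩

theorem DS_eq {D : Dat m M} {E : Dat m N} (e : M ≃ N) (h : EqF D E (id : M → M) e) :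
    DS D = DS E :=
  Set.Subset.antisymm (DS_sub e h) (DS_sub e.symm (EqF.symm e h))

/-- a sequence of pairwise incomparable points of infinite level carrying a given relation -/
theorem exists_seq (m : ℕ) (R : ℕ → ℕ → Prop) : ∃ z : ℕ → ℕ, ∀ i j,
    ((U m).ad (z i) (z j) ↔ R i j) ∧ (z i = z j ↔ i = j) ∧ ¬ (U m).lt (z i) (z j) ∧
      (U m).lev (z i) = ⊤ := by
  let Good : ∀ n : ℕ, (Fin n → ℕ) → Prop := fun n h => ∀ i j : Fin n,
    ((U m).ad (h i) (h j) ↔ R i j) ∧ (h i = h j ↔ (i : ℕ) = j) ∧ ¬ (U m).lt (h i) (h j) ∧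
      (U m).lev (h i) = ⊤
  have hb : ∃ z : ℕ → ℕ, ∀ n, Good n (fun i => z i) := by
    refine build Good (fun i => i.elim0) ?_
    intro n h hh
    have hc : Cons (U m) h ⟨fun _ => False, fun _ => False, fun j => R n j, fun j => R j n, R n n,
        0⟩ := by
      constructor
      · exact fun _ _ h => h.elim
      · exact fun _ _ h => h.elim
      · exact fun _ _ h => h.elim
      · exact fun _ h => h.elim
      · exact fun _ h => h.elim
      · intro i j hij hi
        have := (hh i j).2.1.1 hij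
        change R n j
        rw [← this]; exact hi
      · intro i j hij hi
        have := (hh i j).2.1.1 hij
        change R j n
        rw [← this]; exact hi
    obtain ⟨y, hy, hyl⟩ := (full_U m).ext (Fin n) h _ hc ⊤ (fun _ h => h.elim) (fun _ h => h.elim)
    refine ⟨y, ?_⟩
    intro i j
    refine Fin.lastCases ?_ (fun i => ?_) i
    · refine Fin.lastCases ?_ (fun j => ?_) j
      · simp only [Fin.snoc_last, Fin.val_last]
        exact ⟨hy.lp, by simp, (full_U m).irr y, hyl⟩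
      · simp only [Fin.snoc_last, Fin.val_last, Fin.snoc_castSucc, Fin.val_castSucc]
        refine ⟨hy.ot j, ⟨fun h' => (hy.ne j h').elim, fun h' => ?_⟩,
          fun h' => (hy.up j).1 h', hyl⟩
        have := j.2
        omega
    · refine Fin.lastCases ?_ (fun j => ?_) j
      · simp only [Fin.snoc_last, Fin.val_last, Fin.snoc_castSucc, Fin.val_castSucc]
        refine ⟨hy.inn i, ⟨fun h' => (hy.ne i h'.symm).elim, fun h' => ?_⟩,
          fun h' => (hy.dn i).1 h', (hh i i).2.2.2⟩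
        have := i.2
        omega
      · simp only [Fin.snoc_castSucc, Fin.val_castSucc]
        exact hh i j
  obtain ⟨z, hz⟩ := hb
  refine ⟨z, fun i j => ?_⟩
  exact hz (max i j + 1) ⟨i, by omega⟩ ⟨j, by omega⟩

/-- the coding relation -/
def edge (A : Set ℕ) (i j : ℕ) : Prop :=
  (Nat.unpair i).2 = 0 ∧ (Nat.unpair i).1 ∈ A ∧ (Nat.unpair j).1 = (Nat.unpair i).1 ∧
    1 ≤ (Nat.unpair j).2 ∧ (Nat.unpair j).2 ≤ (Nat.unpair i).1 + 1

theorem edge_card (A : Set ℕ) (i : ℕ) (h0 : (Nat.unpair i).2 = 0) (hA : (Nat.unpair i).1 ∈ A) :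
    {j | edge A i j}.ncard = (Nat.unpair i).1 + 1 := by
  have : {j | edge A i j} = (fun s => Nat.pair (Nat.unpair i).1 s) ''
      (Set.Icc 1 ((Nat.unpair i).1 + 1)) := by
    ext j
    constructor
    · rintro ⟨-, -, h1, h2, h3⟩
      refine ⟨(Nat.unpair j).2, ⟨h2, h3⟩, ?_⟩
      change Nat.pair (Nat.unpair i).1 (Nat.unpair j).2 = j
      rw [← h1, Nat.pair_unpair]
    · rintro ⟨s, ⟨h2, h3⟩, rfl⟩
      refine ⟨h0, hA, ?_, ?_, ?_⟩
      · simp
      · simpa using h2
      · simpa using h3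
  rw [this, Set.ncard_image_of_injective]
  · rw [Set.ncard_eq_toFinset_card', Set.toFinset_Icc, Nat.card_Icc]
    omega
  · intro a b hab
    exact (Nat.pair_eq_pair.1 hab).2

theorem edge_empty (A : Set ℕ) (i : ℕ) (h : ¬ ((Nat.unpair i).2 = 0 ∧ (Nat.unpair i).1 ∈ A)) :
    {j | edge A i j}.ncard = 0 := by
  have : {j | edge A i j} = ∅ := by
    ext j
    constructor
    · rintro ⟨h1, h2, -⟩
      exact (h ⟨h1, h2⟩).elim
    · exact fun h => h.elim
  rw [this, Set.ncard_empty]

theorem exists_code (m : ℕ) (A : Set ℕ) : ∃ B : MN m, DS B.dat = A := by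
  obtain ⟨z, hz⟩ := exists_seq m (edge A)
  obtain ⟨B, e, h⟩ := exists_MN (m := m) (Set.range z)
  refine ⟨B, ?_⟩
  have h1 : DS (((U m).sub (part (U m) (Set.range z))).pull e) = DS B.dat :=
    DS_eq (Equiv.refl ℕ) h
  have h2 : DS (((U m).sub (part (U m) (Set.range z))).pull e) =
      DS ((U m).sub (part (U m) (Set.range z))) := by
    refine DS_eq e ?_
    intro x y
    exact ⟨Iff.rfl, Iff.rfl, e.injective.eq_iff.symm, rfl, rfl⟩
  rw [← h1, h2]
  have hzm : ∀ i, z i ∈ part (U m) (Set.range z) := fun i => Or.inr ⟨z i, ⟨i, rfl⟩, Or.inl rfl⟩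
  have hMn : ∀ x : part (U m) (Set.range z), Mn ((U m).sub (part (U m) (Set.range z))) x ↔
      ∃ i, z i = x := by
    intro x
    constructor
    · rintro ⟨hx, hmin⟩
      rcases x.2 with h3 | ⟨_, ⟨i, rfl⟩, h3⟩
      · exact (h3 hx).elim
      · rcases h3 with h3 | h3
        · exact ⟨i, h3⟩
        · exact (hmin ⟨z i, hzm i⟩ (hz i i).2.2.2 h3).elim
    · rintro ⟨i, hi⟩
      refine ⟨?_, ?_⟩
      · change (U m).lev x = ⊤
        rw [← hi]; exact (hz i i).2.2.2
      · intro y hy hlt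
        change (U m).lt y x at hlt
        rw [← hi] at hlt
        rcases y.2 with h3 | ⟨_, ⟨j, rfl⟩, h3⟩
        · exact h3 hy
        · rcases h3 with h3 | h3
          · rw [← h3] at hlt
            exact (hz j i).2.2.1 hlt
          · exact (hz j i).2.2.1 ((full_U m).tr _ _ _ h3 hlt)
  have hcard : ∀ i, {y : part (U m) (Set.range z) | Mn ((U m).sub (part (U m) (Set.range z))) y ∧
      ((U m).sub (part (U m) (Set.range z))).ad ⟨z i, hzm i⟩ y}.ncard =
      {j | edge A i j}.ncard := by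
    intro i
    have : {y : part (U m) (Set.range z) | Mn ((U m).sub (part (U m) (Set.range z))) y ∧
      ((U m).sub (part (U m) (Set.range z))).ad ⟨z i, hzm i⟩ y} =
      (fun j => (⟨z j, hzm j⟩ : part (U m) (Set.range z))) '' {j | edge A i j} := by
      ext y
      constructor
      · rintro ⟨h3, h4⟩
        obtain ⟨j, hj⟩ := (hMn y).1 h3
        refine ⟨j, ?_, Subtype.ext hj⟩
        change (U m).ad (z i) y at h4
        rw [← hj] at h4
        exact (hz i j).1.1 h4
      · rintro ⟨j, hj, rfl⟩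
        exact ⟨(hMn _).2 ⟨j, rfl⟩, (hz i j).1.2 hj⟩
    rw [this, Set.ncard_image_of_injective]
    intro a b hab
    exact (hz a b).2.1.1 (congrArg Subtype.val hab)
  ext d
  constructor
  · rintro ⟨x, hx, hd⟩
    obtain ⟨i, hi⟩ := (hMn x).1 hx
    have hx' : x = ⟨z i, hzm i⟩ := Subtype.ext hi.symm
    subst hx'
    rw [hcard i] at hd
    by_cases h0 : (Nat.unpair i).2 = 0 ∧ (Nat.unpair i).1 ∈ A
    · rw [edge_card A i h0.1 h0.2] at hd
      have : (Nat.unpair i).1 = d := by omega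
      rw [← this]; exact h0.2
    · rw [edge_empty A i h0] at hd
      omega
  · intro hd
    refine ⟨⟨z (Nat.pair d 0), hzm _⟩, (hMn _).2 ⟨_, rfl⟩, ?_⟩
    rw [hcard, edge_card]
    · simp
    · simp
    · simpa using hd

theorem DS_iso_aux {D : Dat m M} {E : Dat m N} [(Lg m).Structure M] [(Lg m).Structure N]
    (hD : Descr D) (hE : Descr E) (f : M ≃[Lg m] N) : DS D = DS E :=
  DS_eq f.toEquiv (eqF_of_raw hD hE f.toEquiv.injective (fun r v => f.map_rel' r v)
    (fun r v => f.map_rel' r v))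

theorem DS_iso (A B : MN m) (h : Nonempty (@Language.Equiv (Lg m) ℕ ℕ A.1 B.1)) :
    DS A.dat = DS B.dat := by
  obtain ⟨f⟩ := h
  exact @DS_iso_aux m ℕ ℕ A.dat B.dat A.1 B.1 A.descr B.descr f

instance (n : ℕ) : Countable (Rl m n) := by
  have : Function.Injective (fun r : Rl m n => (match r with
    | Rl.lt => Sum.inl (Sum.inl ())
    | Rl.ad => Sum.inl (Sum.inr ())
    | Rl.lb j => Sum.inr (Sum.inl j)
    | Rl.lv q => Sum.inr (Sum.inr q) : (Unit ⊕ Unit) ⊕ (Fin (m + 1) ⊕ ℕ))) := by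
    intro r s hrs
    cases r <;> cases s <;> simp_all
  exact this.countable

theorem card_Lg : (Lg m).card ≤ Cardinal.aleph0 := by
  have : Countable (Lg m).Symbols := by
    change Countable ((Σ l, (fun _ => Empty) l) ⊕ (Σ l, Rl m l))
    infer_instance
  exact Cardinal.mk_le_aleph0_iff.2 this

theorem card_MN : Cardinal.mk (MN m) ≤ Cardinal.continuum := by
  let F : MN m → Set (Σ r : (Σ n, Rl m n), (Fin r.1 → ℕ)) := fun A =>
    {p | @Structure.RelMap (Lg m) ℕ A.1 p.1.1 p.1.2 p.2}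
  have hF : Function.Injective F := by
    intro A B hAB
    apply Subtype.ext
    have h1 : ∀ (n : ℕ) (r : Rl m n) (v : Fin n → ℕ), @Structure.RelMap (Lg m) ℕ A.1 n r v =
        @Structure.RelMap (Lg m) ℕ B.1 n r v := by
      intro n r v
      have := Set.ext_iff.1 hAB ⟨⟨n, r⟩, v⟩
      exact propext this
    refine Structure.ext ?_ ?_
    · funext n f
      exact Empty.elim f
    · funext n r v
      exact h1 n r v
  refine (Cardinal.mk_le_of_injective hF).trans ?_
  rw [Cardinal.mk_set]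
  have : Cardinal.mk (Σ r : (Σ n, Rl m n), (Fin r.1 → ℕ)) ≤ Cardinal.aleph0 :=
    Cardinal.mk_le_aleph0_iff.2 inferInstance
  calc (2 : Cardinal) ^ Cardinal.mk (Σ r : (Σ n, Rl m n), (Fin r.1 → ℕ))
      ≤ 2 ^ Cardinal.aleph0 := Cardinal.power_le_power_left (by norm_num) this
    _ = Cardinal.continuum := Cardinal.two_power_aleph0

end Pool.Agent.Q209.BE
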