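import Pool.Agent.Q209.BE.Uni

/-!
# The theory, and every model of it is a generic levelled order
-/

namespace Pool.Agent.Q209.BE

open FirstOrder FirstOrder.Language

variable {m : ℕ} {M N P : Type}

/-- literal -/
noncomputable def lit {n : ℕ} (P : Prop) (φ : (Lg m).BoundedFormula Empty n) :
    (Lg m).BoundedFormula Empty n := by
  classical
  exact if P then φ else φ.not

theorem realize_lit [(Lg m).Structure N] {n : ℕ} (P : Prop) (φ : (Lg m).BoundedFormula Empty n)
    (v : Empty → N) (xs : Fin n → N) : (lit P φ).Realize v xs ↔ (P ↔ φ.Realize v xs) := by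
  unfold lit
  by_cases hP : P
  · simp [hP]
  · simp [hP, BoundedFormula.realize_not]

def aLt (m : ℕ) {n : ℕ} (i j : Fin n) : (Lg m).BoundedFormula Empty n :=
  BoundedFormula.rel (L := Lg m) (Rl.lt : Rl m 2) ![Term.var (Sum.inr i), Term.var (Sum.inr j)]
def aAd (m : ℕ) {n : ℕ} (i j : Fin n) : (Lg m).BoundedFormula Empty n :=
  BoundedFormula.rel (L := Lg m) (Rl.ad : Rl m 2) ![Term.var (Sum.inr i), Term.var (Sum.inr j)]
def aEq (m : ℕ) {n : ℕ} (i j : Fin n) : (Lg m).BoundedFormula Empty n :=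
  BoundedFormula.equal (Term.var (Sum.inr i)) (Term.var (Sum.inr j))
def aLb {n : ℕ} (u : Fin (m + 1)) (i : Fin n) : (Lg m).BoundedFormula Empty n :=
  BoundedFormula.rel (L := Lg m) (Rl.lb u : Rl m 1) ![Term.var (Sum.inr i)]
def aLv (m : ℕ) {n : ℕ} (q : ℕ) (i : Fin n) : (Lg m).BoundedFormula Empty n :=
  BoundedFormula.rel (L := Lg m) (Rl.lv q : Rl m 1) ![Term.var (Sum.inr i)]

variable [(Lg m).Structure M] [(Lg m).Structure N]

theorem realize_aLt {n : ℕ} (i j : Fin n) (v : Empty → N) (xs : Fin n → N) :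
    (aLt m i j).Realize v xs ↔ rlt m (xs i) (xs j) :=
  rel_two (m := m) Rl.lt _
theorem realize_aAd {n : ℕ} (i j : Fin n) (v : Empty → N) (xs : Fin n → N) :
    (aAd m i j).Realize v xs ↔ rad m (xs i) (xs j) :=
  rel_two (m := m) Rl.ad _
theorem realize_aEq {n : ℕ} (i j : Fin n) (v : Empty → N) (xs : Fin n → N) :
    (aEq m i j).Realize v xs ↔ xs i = xs j := Iff.rfl
theorem realize_aLb {n : ℕ} (u : Fin (m + 1)) (i : Fin n) (v : Empty → N) (xs : Fin n → N) :
    (aLb u i).Realize v xs ↔ rlb u (xs i) :=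
  rel_one (m := m) (Rl.lb u) _
theorem realize_aLv {n : ℕ} (q : ℕ) (i : Fin n) (v : Empty → N) (xs : Fin n → N) :
    (aLv m q i).Realize v xs ↔ rlv m q (xs i) :=
  rel_one (m := m) (Rl.lv q) _

/-- the diagram up to level `k` -/
noncomputable def dg (m : ℕ) {M : Type} [(Lg m).Structure M] (k : ℕ) {n : ℕ} (v : Fin n → M) :
    (Lg m).BoundedFormula Empty n :=
  BoundedFormula.iInf (fun p : Fin n × Fin n =>
    (lit (rlt m (v p.1) (v p.2)) (aLt m p.1 p.2) ⊓ lit (rad m (v p.1) (v p.2)) (aAd m p.1 p.2)) ⊓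
    (lit (v p.1 = v p.2) (aEq m p.1 p.2) ⊓
      (BoundedFormula.iInf (fun u : Fin (m + 1) => lit (rlb u (v p.1)) (aLb u p.1)) ⊓
       BoundedFormula.iInf (fun q : Fin k => lit (rlv m q (v p.1)) (aLv m q p.1)))))

theorem realize_dg (k : ℕ) {n : ℕ} (v : Fin n → M) (e : Empty → N) (w : Fin n → N) :
    (dg m k v).Realize e w ↔ REqv m k v w := by
  unfold dg REqv
  rw [BoundedFormula.realize_iInf]
  constructor
  · intro h i j
    have h1 := h (i, j)
    simp only [BoundedFormula.realize_inf, BoundedFormula.realize_iInf, realize_lit, realize_aLt,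
      realize_aAd, realize_aEq, realize_aLb, realize_aLv] at h1
    exact ⟨h1.1.1, h1.1.2, h1.2.1, h1.2.2.1, fun q hq => h1.2.2.2 ⟨q, hq⟩⟩
  · rintro h ⟨i, j⟩
    obtain ⟨a, b, c, d, e⟩ := h i j
    simp only [BoundedFormula.realize_inf, BoundedFormula.realize_iInf, realize_lit, realize_aLt,
      realize_aAd, realize_aEq, realize_aLb, realize_aLv]
    exact ⟨⟨a, b⟩, c, d, fun q => e q q.2⟩

end Pool.Agent.Q209.BE

namespace Pool.Agent.Q209.BE

open FirstOrder FirstOrder.Language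

variable {m : ℕ} {M N P : Type}

/-- the universal structure -/
@[reducible] noncomputable def Ustr (m : ℕ) : (Lg m).Structure ℕ := (U m).str

/-- the theory -/
noncomputable def Th (m : ℕ) : (Lg m).Theory := @completeTheory (Lg m) ℕ (Ustr m)

theorem forth_U (m : ℕ) (k : ℕ) : Forth (U m) (U m) k := forth (full_U m).gen (full_U m).gen k

section
variable [(Lg m).Structure N]

theorem iff_U (hN : N ⊨ Th m) (σ : (Lg m).Sentence) :
    @Sentence.Realize (Lg m) ℕ (Ustr m) σ ↔ N ⊨ σ := by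
  let _ := Ustr m
  constructor
  · intro h
    exact Theory.realize_sentence_of_mem (Th m) h
  · intro h
    by_contra hcon
    have h1 : (BoundedFormula.not σ : (Lg m).Sentence) ∈ Th m := by
      change ℕ ⊨ (BoundedFormula.not σ : (Lg m).Sentence)
      rw [Sentence.Realize, Formula.Realize, BoundedFormula.realize_not]
      exact hcon
    have h2 : N ⊨ (BoundedFormula.not σ : (Lg m).Sentence) :=
      Theory.realize_sentence_of_mem (Th m) h1
    rw [Sentence.Realize, Formula.Realize, BoundedFormula.realize_not] at h2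
    exact h2 h

theorem b2 (hN : N ⊨ Th m) (k : ℕ) {n : ℕ} (w : Fin n → N) :
    ∃ v : Fin n → ℕ, @REqv m N ℕ _ (Ustr m) k _ w v := by
  let _ := Ustr m
  have h1 : N ⊨ (dg m k w).exs := by
    rw [Sentence.Realize, BoundedFormula.realize_exs]
    exact ⟨w, (realize_dg (m := m) k w _ w).2 (fun i j => ⟨Iff.rfl, Iff.rfl, Iff.rfl, fun _ => Iff.rfl,
      fun _ _ => Iff.rfl⟩)⟩
  have h2 := (iff_U hN _).2 h1
  rw [Sentence.Realize, BoundedFormula.realize_exs] at h2
  obtain ⟨v, hv⟩ := h2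
  exact ⟨v, (realize_dg (m := m) k w _ v).1 hv⟩

theorem snoc_comp {α : Type} {n : ℕ} (v : Fin n → α) (a : α) :
    (Fin.snoc v a : Fin (n + 1) → α) = (fun o : Option (Fin n) => o.elim a v) ∘
      (fun i : Fin (n + 1) => if hi : (i : ℕ) < n then some ⟨i, hi⟩ else none) := by
  funext i
  refine Fin.lastCases ?_ (fun i => ?_) i
  · simp
  · simp

theorem b1 (hN : N ⊨ Th m) (k : ℕ) {n : ℕ} (v : Fin n → ℕ) (a : ℕ) (w : Fin n → N)
    (h : @REqv m ℕ N (Ustr m) _ k _ v w) : ∃ b : N,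
      @REqv m ℕ N (Ustr m) _ k _ (Fin.snoc v a : Fin (n + 1) → ℕ)
        (Fin.snoc w b : Fin (n + 1) → N) := by
  let _ := Ustr m
  have hU : Descr (U m) := descr_str (U m)
  have h1 : ℕ ⊨ ((dg m k v).imp (dg m k (Fin.snoc v a : Fin (n + 1) → ℕ)).ex).alls := by
    rw [Sentence.Realize, BoundedFormula.realize_alls]
    intro xs
    rw [BoundedFormula.realize_imp, BoundedFormula.realize_ex]
    intro h2
    have h3 := (realize_dg (m := m) k v _ xs).1 h2
    rw [reqv_iff hU hU] at h3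
    obtain ⟨b, hb⟩ := forth_U m k (Fin n) v xs h3 a
    refine ⟨b, (realize_dg (m := m) k _ _ _).2 ?_⟩
    rw [reqv_iff hU hU, snoc_comp v a, snoc_comp xs b]
    exact hb.comp _
  have h2 := (iff_U hN _).1 h1
  rw [Sentence.Realize, BoundedFormula.realize_alls] at h2
  have h3 := h2 w
  rw [BoundedFormula.realize_imp, BoundedFormula.realize_ex] at h3
  obtain ⟨b, hb⟩ := h3 ((realize_dg (m := m) k v _ w).2 h)
  exact ⟨b, (realize_dg (m := m) k _ _ _).1 hb⟩

theorem exists_descr (hN : N ⊨ Th m) : ∃ E : Dat m N, Descr E := by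
  classical
  let _ := Ustr m
  have hU : Descr (U m) := descr_str (U m)
  have hlb : ∀ x : N, ∃ u : Fin (m + 1), ∀ j : Fin (m + 1), rlb j x ↔ u = j := by
    intro x
    obtain ⟨v, hv⟩ := b2 hN 0 (fun _ : Fin 1 => x)
    refine ⟨(U m).lab (v 0), fun j => ?_⟩
    rw [(hv 0 0).2.2.2.1 j, hU.lb]
  have hlv : ∀ x : N, ∃ l : ℕ∞, ∀ q : ℕ, rlv m q x ↔ l = (q : ℕ∞) := by
    intro x
    by_cases hx : ∃ q, rlv m q x
    · obtain ⟨q, hq⟩ := hx
      refine ⟨q, fun q' => ?_⟩
      obtain ⟨v, hv⟩ := b2 hN (max q q' + 1) (fun _ : Fin 1 => x)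
      have h1 := (hv 0 0).2.2.2.2 q (by omega)
      have h2 := (hv 0 0).2.2.2.2 q' (by omega)
      rw [hU.lv] at h1 h2
      rw [h2, ← h1.1 hq]
    · refine ⟨⊤, fun q => ⟨fun h => (hx ⟨q, h⟩).elim, fun h => ?_⟩⟩
      exact (ENat.natCast_ne_top q h.symm).elim
  choose lab hlab using hlb
  choose lev hlev using hlv
  exact ⟨{ lt := rlt m, ad := rad m, lab := lab, lev := lev },
    { lt := fun _ _ => Iff.rfl, ad := fun _ _ => Iff.rfl, lb := fun j x => hlab x j,
      lv := fun q x => hlev x q }⟩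

theorem cons_transfer {D : Dat m M} {E : Dat m P} {k : ℕ} {ι : Type} {v : ι → M} {w : ι → P}
    (h : Eqv D E k v w) {p : Pat m ι} (hc : Cons D v p) : Cons E w p where
  du := fun i j hi hj => (h i j).1.1 (hc.du i j hi hj)
  dc := fun i j hj hij => hc.dc i j hj (by
    rcases hij with hij | hij
    · exact Or.inl ((h i j).2.2.1.2 hij)
    · exact Or.inr ((h i j).1.2 hij))
  uc := fun i j hj hij => hc.uc i j hj (by
    rcases hij with hij | hij
    · exact Or.inl ((h i j).2.2.1.2 hij)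
    · exact Or.inr ((h i j).1.2 hij))
  dl := fun i hi => by rw [← (h i i).2.2.2.1]; exact hc.dl i hi
  ul := fun i hi => by rw [← (h i i).2.2.2.1]; exact hc.ul i hi
  eo := fun i j hij => hc.eo i j ((h i j).2.2.1.2 hij)
  ei := fun i j hij => hc.ei i j ((h i j).2.2.1.2 hij)

theorem gen_of_model (hN : N ⊨ Th m) {E : Dat m N} (hE : Descr E) : Gen E := by
  classical
  let _ := Ustr m
  have hU : Descr (U m) := descr_str (U m)
  have hG := (full_U m).gen
  have B2 : ∀ (k : ℕ) {n : ℕ} (w : Fin n → N), ∃ v : Fin n → ℕ, Eqv (U m) E k v w := by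
    intro k n w
    obtain ⟨v, hv⟩ := b2 hN k w
    exact ⟨v, ((reqv_iff hE hU k w v).1 hv).symm⟩
  have B1 : ∀ (k : ℕ) {n : ℕ} (v : Fin n → ℕ) (a : ℕ) (w : Fin n → N), Eqv (U m) E k v w →
      ∃ b, Eqv (U m) E k (Fin.snoc v a : Fin (n + 1) → ℕ) (Fin.snoc w b : Fin (n + 1) → N) := by
    intro k n v a w h
    obtain ⟨b, hb⟩ := b1 hN k v a w ((reqv_iff hU hE k v w).2 h)
    exact ⟨b, (reqv_iff hU hE k _ _).1 hb⟩
  have hord : Ord E := by
    constructor
    · intro x hx
      obtain ⟨v, hv⟩ := B2 0 (fun _ : Fin 1 => x)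
      exact hG.irr _ ((hv 0 0).1.2 hx)
    · intro x y z hxy hyz
      obtain ⟨v, hv⟩ := B2 0 ![x, y, z]
      exact (hv 0 2).1.1 (hG.tr _ _ _ ((hv 0 1).1.2 hxy) ((hv 1 2).1.2 hyz))
    · intro x y hxy
      obtain ⟨v, hv⟩ := B2 0 ![x, y]
      have h1 := (hv 0 0).2.2.2.1
      have h2 := (hv 1 1).2.2.2.1
      have h3 := hG.lab _ _ ((hv 0 1).1.2 hxy)
      rw [h1, h2] at h3
      exact h3
    · intro x y hxy
      by_cases hy : E.lev y = ⊤
      · rw [hy]; exact le_top
      · obtain ⟨q, hq⟩ := ENat.ne_top_iff_exists.1 hy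
        obtain ⟨v, hv⟩ := B2 (q + 1) ![x, y]
        have h1 : (U m).lev (v 1) = (q : ℕ∞) :=
          ((hv 1 1).2.2.2.2 q (Nat.lt_succ_self q)).2 hq.symm
        have h3 := hG.lev _ _ ((hv 0 1).1.2 hxy)
        rw [h1] at h3
        obtain ⟨r, hr⟩ := ENat.ne_top_iff_exists.1
          (ne_top_of_le_ne_top (ENat.natCast_ne_top q) h3)
        rw [← hr, Nat.cast_le] at h3
        have h4 : E.lev x = (r : ℕ∞) := ((hv 0 0).2.2.2.2 r (by omega)).1 hr.symm
        rw [h4, ← hq, Nat.cast_le]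
        exact h3
  have key : ∀ (ι : Type) [Finite ι] (w : ι → N) (p : Pat m ι), Cons E w p → ∀ k : ℕ,
      ∃ v : ι → ℕ, Eqv (U m) E k v w ∧ Cons (U m) v p ∧ ∀ a, Rea (U m) v p a →
        ∃ b, Rea E w p b ∧ ∀ q : ℕ, q < k → ((U m).lev a = (q : ℕ∞) ↔ E.lev b = (q : ℕ∞)) := by
    intro ι _ w p hc k
    obtain ⟨n, ⟨e⟩⟩ := Finite.exists_equiv_fin ι
    obtain ⟨v, hv⟩ := B2 k (w ∘ e.symm)
    have hvw : Eqv (U m) E k (v ∘ e) w := by
      have := hv.comp e
      have h2 : (w ∘ e.symm) ∘ e = w := by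
        funext i; simp
      rw [h2] at this
      exact this
    refine ⟨v ∘ e, hvw, cons_transfer hvw.symm hc, fun a ha => ?_⟩
    obtain ⟨b, hb⟩ := B1 k v a _ hv
    have hs : ∀ i : ι, (Fin.snoc v a : Fin (n + 1) → ℕ) (Fin.castSucc (e i)) = v (e i) := by
      intro i; rw [Fin.snoc_castSucc]
    have hs' : ∀ i : ι, (Fin.snoc (w ∘ e.symm) b : Fin (n + 1) → N) (Fin.castSucc (e i)) = w i := by
      intro i; rw [Fin.snoc_castSucc]; simp
    have hl : (Fin.snoc v a : Fin (n + 1) → ℕ) (Fin.last n) = a := by rw [Fin.snoc_last]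
    have hl' : (Fin.snoc (w ∘ e.symm) b : Fin (n + 1) → N) (Fin.last n) = b := by
      rw [Fin.snoc_last]
    refine ⟨b, ?_, ?_⟩
    · constructor
      · intro i h
        have h1 := (hb (Fin.last n) (Fin.castSucc (e i))).2.2.1
        rw [hs, hs', hl, hl'] at h1
        exact ha.ne i (h1.2 h)
      · intro i
        have h1 := (hb (Fin.castSucc (e i)) (Fin.last n)).1
        rw [hs, hs', hl, hl'] at h1
        exact h1.symm.trans (ha.dn i)
      · intro i
        have h1 := (hb (Fin.last n) (Fin.castSucc (e i))).1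
        rw [hs, hs', hl, hl'] at h1
        exact h1.symm.trans (ha.up i)
      · intro i
        have h1 := (hb (Fin.last n) (Fin.castSucc (e i))).2.1
        rw [hs, hs', hl, hl'] at h1
        exact h1.symm.trans (ha.ot i)
      · intro i
        have h1 := (hb (Fin.castSucc (e i)) (Fin.last n)).2.1
        rw [hs, hs', hl, hl'] at h1
        exact h1.symm.trans (ha.inn i)
      · have h1 := (hb (Fin.last n) (Fin.last n)).2.1
        rw [hl, hl'] at h1
        exact h1.symm.trans ha.lp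
      · have h1 := (hb (Fin.last n) (Fin.last n)).2.2.2.1
        rw [hl, hl'] at h1
        rw [← h1]; exact ha.lb
    · intro q hq
      have h1 := (hb (Fin.last n) (Fin.last n)).2.2.2.2 q hq
      rw [hl, hl'] at h1
      exact h1
  constructor
  · exact hord
  · intro ι _ w p hc
    obtain ⟨v, -, hcv, hv⟩ := key ι w p hc 0
    obtain ⟨a, ha⟩ := hG.ext0 ι v p hcv
    obtain ⟨b, hb, -⟩ := hv a ha
    exact ⟨b, hb⟩
  · intro ι _ w p hc n h1 h2
    obtain ⟨v, hvw, hcv, hv⟩ := key ι w p hc (n + 1)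
    obtain ⟨a, ha, han⟩ := hG.ext1 ι v p hcv n (by
      intro i hi
      have h3 := h1 i hi
      obtain ⟨q, hq⟩ := ENat.ne_top_iff_exists.1
        (ne_top_of_le_ne_top (ENat.natCast_ne_top n) h3)
      rw [← hq, Nat.cast_le] at h3
      rw [((hvw i i).2.2.2.2 q (by omega)).2 hq.symm, Nat.cast_le]
      exact h3) (by
      intro i hi
      exact (hvw.symm.mono (Nat.le_succ n)).lev_le i (h2 i hi))
    obtain ⟨b, hb, hbq⟩ := hv a ha
    exact ⟨b, hb, (hbq n (Nat.lt_succ_self n)).1 han⟩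

/-- structures described by generic data are models of the theory -/
theorem model_of_gen {E : Dat m N} (hE : Descr E) (hG : Gen E) : N ⊨ Th m := by
  let _ := Ustr m
  have hU : Descr (U m) := descr_str (U m)
  rw [Theory.model_iff]
  intro σ hσ
  exact (sentence_iff hU hE (fun k => forth (full_U m).gen hG k)
    (fun k => forth hG (full_U m).gen k) σ).1 hσ

end

end Pool.Agent.Q209.BE
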