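import Pool.Agent.Q209.BE.Gen

/-!
# The countable universal generic levelled order and its generic parts
-/

namespace Pool.Agent.Q209.BE

variable {m : ℕ} {M N P : Type}

/-- levels and extension property at every level -/
structure Full (D : Dat m M) : Prop extends Ord D where
  ext : ∀ (ι : Type) [Finite ι] (w : ι → M) (p : Pat m ι), Cons D w p → ∀ l : ℕ∞,
    (∀ i, p.dn i → D.lev (w i) ≤ l) → (∀ i, p.up i → l ≤ D.lev (w i)) →
    ∃ y, Rea D w p y ∧ D.lev y = l

theorem exists_level {D : Dat m M} (hD : Ord D) {ι : Type} [Finite ι] {w : ι → M} {p : Pat m ι}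
    (hc : Cons D w p) : ∃ l : ℕ∞, (∀ i, p.dn i → D.lev (w i) ≤ l) ∧
      (∀ i, p.up i → l ≤ D.lev (w i)) ∧ (l = ⊤ → ∃ i, p.dn i ∧ D.lev (w i) = ⊤) := by
  let f : Option {i // p.dn i} → ℕ∞ := fun o => o.elim 0 (fun i => D.lev (w i.1))
  obtain ⟨x0, hx0⟩ := Finite.exists_max f
  refine ⟨f x0, fun i hi => hx0 (some ⟨i, hi⟩), fun i hi => ?_, fun h => ?_⟩
  · rcases x0 with _ | j
    · exact zero_le
    · exact hD.lev _ _ (hc.du _ _ j.2 hi)
  · rcases x0 with _ | j
    · exact (ENat.natCast_ne_top 0 h).elim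
    · exact ⟨j.1, j.2, h⟩

/-- restriction of data to a subset -/
def Dat.sub (D : Dat m M) (S : Set M) : Dat m S where
  lt := fun x y => D.lt x y
  ad := fun x y => D.ad x y
  lab := fun x => D.lab x
  lev := fun x => D.lev x

theorem rea_sub {D : Dat m M} {S : Set M} {ι : Type} {w : ι → S} {p : Pat m ι} {y : M}
    (hy : Rea D (fun i => (w i : M)) p y) (hyS : y ∈ S) : Rea (D.sub S) w p ⟨y, hyS⟩ where
  ne := fun i h => hy.ne i (congrArg Subtype.val h)
  dn := hy.dn
  up := hy.up
  ot := hy.ot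
  inn := hy.inn
  lp := hy.lp
  lb := hy.lb

/-- the part generated by a set of points of infinite level -/
def part (D : Dat m M) (I : Set M) : Set M := {x | D.lev x ≠ ⊤ ∨ ∃ i ∈ I, i = x ∨ D.lt i x}

theorem gen_part {D : Dat m M} (hD : Full D) (I : Set M) :
    Gen (D.sub (part D I)) where
  irr := fun x => hD.irr x
  tr := fun x y z => hD.tr x y z
  lab := fun x y => hD.lab x y
  lev := fun x y => hD.lev x y
  ext0 := by
    intro ι _ w p hc
    have hc' : Cons D (fun i => (w i : M)) p :=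
      { du := hc.du
        dc := fun i j hj hij => hc.dc i j hj (by
          rcases hij with h | h
          · exact Or.inl (Subtype.ext h)
          · exact Or.inr h)
        uc := fun i j hj hij => hc.uc i j hj (by
          rcases hij with h | h
          · exact Or.inl (Subtype.ext h)
          · exact Or.inr h)
        dl := hc.dl
        ul := hc.ul
        eo := fun i j hij => hc.eo i j (Subtype.ext hij)
        ei := fun i j hij => hc.ei i j (Subtype.ext hij) }
    obtain ⟨l, h1, h2, h3⟩ := exists_level hD.toOrd hc'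
    obtain ⟨y, hy, hyl⟩ := hD.ext ι _ p hc' l h1 h2
    have hyS : y ∈ part D I := by
      by_cases hl : l = ⊤
      · obtain ⟨i, hi, hit⟩ := h3 hl
        right
        rcases (w i).2 with h4 | ⟨i0, hi0, h4⟩
        · exact (h4 hit).elim
        · refine ⟨i0, hi0, Or.inr ?_⟩
          have h5 : D.lt (w i) y := (hy.dn i).2 hi
          rcases h4 with h4 | h4
          · rw [h4]; exact h5
          · exact hD.tr _ _ _ h4 h5
      · left; rw [hyl]; exact hl
    exact ⟨⟨y, hyS⟩, rea_sub hy hyS⟩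
  ext1 := by
    intro ι _ w p hc n h1 h2
    have hc' : Cons D (fun i => (w i : M)) p :=
      { du := hc.du
        dc := fun i j hj hij => hc.dc i j hj (by
          rcases hij with h | h
          · exact Or.inl (Subtype.ext h)
          · exact Or.inr h)
        uc := fun i j hj hij => hc.uc i j hj (by
          rcases hij with h | h
          · exact Or.inl (Subtype.ext h)
          · exact Or.inr h)
        dl := hc.dl
        ul := hc.ul
        eo := fun i j hij => hc.eo i j (Subtype.ext hij)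
        ei := fun i j hij => hc.ei i j (Subtype.ext hij) }
    obtain ⟨y, hy, hyl⟩ := hD.ext ι _ p hc' n h1 h2
    have hyS : y ∈ part D I := by
      left; rw [hyl]; exact ENat.natCast_ne_top n
    exact ⟨⟨y, hyS⟩, rea_sub hy hyS, hyl⟩

theorem Full.gen {D : Dat m M} (hD : Full D) : Gen D where
  toOrd := hD.toOrd
  ext0 := by
    intro ι _ w p hc
    obtain ⟨l, h1, h2, _⟩ := exists_level hD.toOrd hc
    obtain ⟨y, hy, _⟩ := hD.ext ι _ p hc l h1 h2
    exact ⟨y, hy⟩
  ext1 := fun ι _ w p hc n h1 h2 => hD.ext ι w p hc n h1 h2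

/-- rows -/
abbrev Row (m : ℕ) := Fin (m + 1) × ℕ∞ × Bool × Finset ℕ × Finset ℕ × Finset ℕ × Finset ℕ

instance : Countable ℕ∞ := inferInstanceAs (Countable (Option ℕ))

theorem exists_rows (m : ℕ) : ∃ f : ℕ → Row m, ∀ (r : Row m) (b : ℕ), ∃ n, b ≤ n ∧ f n = r := by
  have : Nonempty (Row m × ℕ) := ⟨⟨⟨0, 0, true, ∅, ∅, ∅, ∅⟩, 0⟩⟩
  obtain ⟨g, hg⟩ := exists_surjective_nat (Row m × ℕ)
  refine ⟨fun n => (g n).1, fun r b => ?_⟩
  by_contra hcon
  push Not at hcon
  have hsub : {n | (g n).1 = r} ⊆ Set.Iio b := by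
    intro n hn
    by_contra h
    exact hcon n (not_lt.1 h) hn
  have hfin : {n | (g n).1 = r}.Finite := (Set.finite_Iio b).subset hsub
  have himg : (g '' {n | (g n).1 = r}).Finite := hfin.image g
  have hinf : (Set.range fun j : ℕ => ((r, j) : Row m × ℕ)).Infinite :=
    Set.infinite_range_of_injective (fun a b h => (Prod.mk.inj h).2)
  refine hinf (himg.subset ?_)
  rintro _ ⟨j, rfl⟩
  obtain ⟨n, hn⟩ := hg (r, j)
  exact ⟨n, by simp [hn], hn⟩

section
variable (f : ℕ → Row m)

def ok (L : ℕ → ℕ → Prop) (n : ℕ) : Prop :=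
  (∀ d ∈ (f n).2.2.2.1, d < n) ∧ (∀ e ∈ (f n).2.2.2.2.1, e < n) ∧
  (∀ d ∈ (f n).2.2.2.1, ∀ e ∈ (f n).2.2.2.2.1, L d e) ∧
  (∀ d ∈ (f n).2.2.2.1, (f n).1 ≤ (f d).1 ∧ (f d).2.1 ≤ (f n).2.1) ∧
  (∀ e ∈ (f n).2.2.2.2.1, (f e).1 ≤ (f n).1 ∧ (f n).2.1 ≤ (f e).2.1)

def Ls : ℕ → ℕ → ℕ → Prop
  | 0 => fun _ _ => False
  | n + 1 => fun x y => Ls n x y ∨
      (y = n ∧ x < n ∧ ok f (Ls n) n ∧ ∃ d ∈ (f n).2.2.2.1, x = d ∨ Ls n x d) ∨
      (x = n ∧ y < n ∧ ok f (Ls n) n ∧ ∃ e ∈ (f n).2.2.2.2.1, y = e ∨ Ls n e y)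

theorem Ls_bd (n : ℕ) : ∀ x y, Ls f n x y → x < n ∧ y < n := by
  induction n with
  | zero => intro x y h; exact h.elim
  | succ n ih =>
    rintro x y (h | ⟨rfl, h, -, -⟩ | ⟨rfl, h, -, -⟩)
    · have := ih x y h
      omega
    · omega
    · omega

theorem Ls_inv (n : ℕ) : (∀ x, ¬ Ls f n x x) ∧
    (∀ x y z, Ls f n x y → Ls f n y z → Ls f n x z) ∧
    (∀ x y, Ls f n x y → (f y).1 ≤ (f x).1 ∧ (f x).2.1 ≤ (f y).2.1) := by
  induction n with
  | zero => exact ⟨fun x h => h.elim, fun x y z h => h.elim, fun x y h => h.elim⟩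
  | succ n ih =>
    obtain ⟨ih1, ih2, ih3⟩ := ih
    have bd := Ls_bd f n
    refine ⟨?_, ?_, ?_⟩
    · rintro x (h | ⟨rfl, h, -, -⟩ | ⟨rfl, h, -, -⟩)
      · exact ih1 x h
      · omega
      · omega
    · rintro x y z (h | ⟨rfl, hx, hok, d, hd, hxd⟩ | ⟨rfl, hy, hok, e, he, hye⟩)
        (h' | ⟨hz, hy', hok', d', hd', hyd'⟩ | ⟨hy', hz, hok', e', he', hze'⟩)
      · exact Or.inl (ih2 x y z h h')
      · refine Or.inr (Or.inl ⟨hz, (bd _ _ h).1, hok', d', hd', Or.inr ?_⟩)
        rcases hyd' with rfl | hyd'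
        · exact h
        · exact ih2 _ _ _ h hyd'
      · have := (bd _ _ h).2
        omega
      · have := (bd _ _ h').1
        omega
      · omega
      · left
        have h1 : Ls f y d e' := hok.2.2.1 d hd e' he'
        have h2 : Ls f y x e' := by
          rcases hxd with rfl | hxd
          · exact h1
          · exact ih2 _ _ _ hxd h1
        rcases hze' with rfl | hze'
        · exact h2
        · exact ih2 _ _ _ h2 hze'
      · refine Or.inr (Or.inr ⟨rfl, (bd _ _ h').2, hok, e, he, Or.inr ?_⟩)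
        rcases hye with rfl | hye
        · exact h'
        · exact ih2 _ _ _ hye h'
      · exfalso
        subst hz
        have h1 : Ls f z d' e := hok.2.2.1 d' hd' e he
        have h2 : Ls f z y e := by
          rcases hyd' with rfl | hyd'
          · exact h1
          · exact ih2 _ _ _ hyd' h1
        rcases hye with rfl | hye
        · exact ih1 _ h2
        · exact ih1 _ (ih2 _ _ _ h2 hye)
      · omega
    · rintro x y (h | ⟨rfl, hx, hok, d, hd, hxd⟩ | ⟨rfl, hy, hok, e, he, hye⟩)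
      · exact ih3 x y h
      · have h1 := hok.2.2.2.1 d hd
        rcases hxd with rfl | hxd
        · exact h1
        · have h2 := ih3 _ _ hxd
          exact ⟨h1.1.trans h2.1, h2.2.trans h1.2⟩
      · have h1 := hok.2.2.2.2 e he
        rcases hye with rfl | hye
        · exact h1
        · have h2 := ih3 _ _ hye
          exact ⟨h2.1.trans h1.1, h1.2.trans h2.2⟩

theorem Ls_step {n x y : ℕ} (hx : x < n) (hy : y < n) : Ls f (n + 1) x y ↔ Ls f n x y := by
  constructor
  · rintro (h | ⟨rfl, -⟩ | ⟨rfl, -⟩)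
    · exact h
    · omega
    · omega
  · exact Or.inl

theorem Ls_stab {n k x y : ℕ} (hx : x < n) (hy : y < n) (hnk : n ≤ k) :
    Ls f k x y ↔ Ls f n x y := by
  induction k, hnk using Nat.le_induction with
  | base => exact Iff.rfl
  | succ k hk ih => exact (Ls_step f (by omega) (by omega)).trans ih

def ltf (x y : ℕ) : Prop := ∃ n, Ls f n x y

theorem ltf_iff {n x y : ℕ} (hx : x < n) (hy : y < n) : ltf f x y ↔ Ls f n x y := by
  constructor
  · rintro ⟨k, hk⟩
    rcases le_total n k with h | h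
    · exact (Ls_stab f hx hy h).1 hk
    · have := Ls_bd f k x y hk
      exact (Ls_stab f this.1 this.2 h).2 hk
  · exact fun h => ⟨n, h⟩

/-- the data built from the rows -/
def uni : Dat m ℕ where
  lt := ltf f
  ad := fun x y => (x < y ∧ x ∈ (f y).2.2.2.2.2.2) ∨ (y < x ∧ y ∈ (f x).2.2.2.2.2.1) ∨
    (x = y ∧ (f x).2.2.1 = true)
  lab := fun x => (f x).1
  lev := fun x => (f x).2.1

theorem ord_uni : Ord (uni f) where
  irr := by
    rintro x ⟨n, h⟩
    exact (Ls_inv f n).1 x h
  tr := by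
    rintro x y z ⟨n, h⟩ ⟨k, h'⟩
    have h1 := Ls_bd f n x y h
    have h2 := Ls_bd f k y z h'
    refine ⟨max n k, (Ls_inv f (max n k)).2.1 x y z ?_ ?_⟩
    · exact (Ls_stab f h1.1 h1.2 (le_max_left _ _)).2 h
    · exact (Ls_stab f h2.1 h2.2 (le_max_right _ _)).2 h'
  lab := by
    rintro x y ⟨n, h⟩
    exact ((Ls_inv f n).2.2 x y h).1
  lev := by
    rintro x y ⟨n, h⟩
    exact ((Ls_inv f n).2.2 x y h).2

theorem full_uni (hf : ∀ (r : Row m) (b : ℕ), ∃ n, b ≤ n ∧ f n = r) : Full (uni f) where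
  toOrd := ord_uni f
  ext := by
    classical
    intro ι _ w p hc l h1 h2
    have := Fintype.ofFinite ι
    obtain ⟨b, hb⟩ := (Set.finite_range w).bddAbove
    have hb' : ∀ i, w i ≤ b := fun i => hb ⟨i, rfl⟩
    obtain ⟨n, hn, hrow⟩ := hf (p.lb, l, decide p.lp, (Finset.univ.filter p.dn).image w,
      (Finset.univ.filter p.up).image w, (Finset.univ.filter p.ot).image w,
      (Finset.univ.filter p.inn).image w) (b + 1)
    have hw : ∀ i, w i < n := fun i => lt_of_le_of_lt (hb' i) (by omega)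
    have mdn : ∀ x, x ∈ (f n).2.2.2.1 ↔ ∃ i, p.dn i ∧ w i = x := by
      intro x; rw [hrow]; simp
    have mup : ∀ x, x ∈ (f n).2.2.2.2.1 ↔ ∃ i, p.up i ∧ w i = x := by
      intro x; rw [hrow]; simp
    have mot : ∀ x, x ∈ (f n).2.2.2.2.2.1 ↔ ∃ i, p.ot i ∧ w i = x := by
      intro x; rw [hrow]; simp
    have minn : ∀ x, x ∈ (f n).2.2.2.2.2.2 ↔ ∃ i, p.inn i ∧ w i = x := by
      intro x; rw [hrow]; simp
    have hlb : (f n).1 = p.lb := by rw [hrow]
    have hlv : (f n).2.1 = l := by rw [hrow]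
    have hlp : (f n).2.2.1 = true ↔ p.lp := by rw [hrow]; simp
    have hok : ok f (Ls f n) n := by
      refine ⟨?_, ?_, ?_, ?_, ?_⟩
      · intro d hd
        obtain ⟨i, _, rfl⟩ := (mdn d).1 hd
        exact hw i
      · intro d hd
        obtain ⟨i, _, rfl⟩ := (mup d).1 hd
        exact hw i
      · intro d hd e he
        obtain ⟨i, hi, rfl⟩ := (mdn d).1 hd
        obtain ⟨j, hj, rfl⟩ := (mup e).1 he
        exact (ltf_iff f (hw i) (hw j)).1 (hc.du i j hi hj)
      · intro d hd
        obtain ⟨i, hi, rfl⟩ := (mdn d).1 hd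
        rw [hlb, hlv]
        exact ⟨hc.dl i hi, h1 i hi⟩
      · intro d hd
        obtain ⟨i, hi, rfl⟩ := (mup d).1 hd
        rw [hlb, hlv]
        exact ⟨hc.ul i hi, h2 i hi⟩
    refine ⟨n, ?_, hlv⟩
    constructor
    · intro i hi
      have := hw i
      omega
    · intro i
      have h3 : (uni f).lt (w i) n ↔ Ls f (n + 1) (w i) n :=
        ltf_iff f (lt_trans (hw i) (Nat.lt_succ_self n)) (Nat.lt_succ_self n)
      rw [h3]
      constructor
      · rintro (h | ⟨-, -, -, d, hd, hxd⟩ | ⟨h, -⟩)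
        · have := (Ls_bd f n _ _ h).2
          omega
        · obtain ⟨j, hj, rfl⟩ := (mdn d).1 hd
          refine hc.dc i j hj ?_
          rcases hxd with h | h
          · exact Or.inl h
          · exact Or.inr ((ltf_iff f (hw i) (hw j)).2 h)
        · have := hw i
          omega
      · intro hi
        exact Or.inr (Or.inl ⟨rfl, hw i, hok, w i, (mdn _).2 ⟨i, hi, rfl⟩, Or.inl rfl⟩)
    · intro i
      have h3 : (uni f).lt n (w i) ↔ Ls f (n + 1) n (w i) :=
        ltf_iff f (Nat.lt_succ_self n) (lt_trans (hw i) (Nat.lt_succ_self n))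
      rw [h3]
      constructor
      · rintro (h | ⟨h, -⟩ | ⟨-, -, -, e, he, hye⟩)
        · have := (Ls_bd f n _ _ h).1
          omega
        · have := hw i
          omega
        · obtain ⟨j, hj, rfl⟩ := (mup e).1 he
          refine hc.uc j i hj ?_
          rcases hye with h | h
          · exact Or.inl h.symm
          · exact Or.inr ((ltf_iff f (hw j) (hw i)).2 h)
      · intro hi
        exact Or.inr (Or.inr ⟨rfl, hw i, hok, w i, (mup _).2 ⟨i, hi, rfl⟩, Or.inl rfl⟩)
    · intro i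
      have h3 : (uni f).ad n (w i) ↔ w i ∈ (f n).2.2.2.2.2.1 := by
        constructor
        · rintro (⟨h, -⟩ | ⟨-, h⟩ | ⟨h, -⟩)
          · have := hw i
            omega
          · exact h
          · have := hw i
            omega
        · intro h
          exact Or.inr (Or.inl ⟨hw i, h⟩)
      rw [h3, mot]
      constructor
      · rintro ⟨j, hj, hji⟩
        exact hc.eo j i hji hj
      · intro h
        exact ⟨i, h, rfl⟩
    · intro i
      have h3 : (uni f).ad (w i) n ↔ w i ∈ (f n).2.2.2.2.2.2 := by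
        constructor
        · rintro (⟨-, h⟩ | ⟨h, -⟩ | ⟨h, -⟩)
          · exact h
          · have := hw i
            omega
          · have := hw i
            omega
        · intro h
          exact Or.inl ⟨hw i, h⟩
      rw [h3, minn]
      constructor
      · rintro ⟨j, hj, hji⟩
        exact hc.ei j i hji hj
      · intro h
        exact ⟨i, h, rfl⟩
    · have h3 : (uni f).ad n n ↔ (f n).2.2.1 = true := by
        constructor
        · rintro (⟨h, -⟩ | ⟨h, -⟩ | ⟨-, h⟩)
          · omega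
          · omega
          · exact h
        · intro h
          exact Or.inr (Or.inr ⟨rfl, h⟩)
      rw [h3, hlp]
    · exact hlb

end

theorem exists_full (m : ℕ) : ∃ D : Dat m ℕ, Full D := by
  obtain ⟨f, hf⟩ := exists_rows m
  exact ⟨uni f, full_uni f hf⟩

/-- the universal data -/
noncomputable def U (m : ℕ) : Dat m ℕ := Classical.choose (exists_full m)

theorem full_U (m : ℕ) : Full (U m) := Classical.choose_spec (exists_full m)

end Pool.Agent.Q209.BE
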